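import Pool.Agent.Q193.LT.Prime

/-!
# The rings `A[t] / (t w)`
-/

set_option autoImplicit false

open MvPolynomial

namespace Pool.Agent.Q115.DU

open Pool.Agent.Y116.UV

variable {R : Type} [CommRing R]

/-- The ring `A[t] / (t w)`: its spectrum is the union of `Spec A` and of `𝔸¹ × Spec (A / w)`. -/
abbrev Glue (A : Type) [CommRing A] (w : A) : Type :=
  Polynomial A ⧸ Ideal.span {Polynomial.X * Polynomial.C w}

section Glue

variable {A B : Type} [CommRing A] [CommRing B] [Algebra R A] [Algebra R B]

/-- the class of a constant -/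
noncomputable def gC (R : Type) [CommRing R] {A : Type} [CommRing A] [Algebra R A] (w : A) :
    A →ₐ[R] Glue A w :=
  (Ideal.Quotient.mkₐ R _).comp Polynomial.CAlgHom

/-- the class of the variable -/
noncomputable def gX {A : Type} [CommRing A] (w : A) : Glue A w := Ideal.Quotient.mk _ Polynomial.X

lemma gC_apply (w a : A) : gC R w a = Ideal.Quotient.mk _ (Polynomial.C a) := rfl

lemma gX_mul (w : A) : gX w * gC R w w = 0 := by
  rw [gX, gC_apply, ← map_mul]
  exact Ideal.Quotient.eq_zero_iff_mem.2 (Ideal.mem_span_singleton_self _)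

/-- homomorphisms from `A[t] / (t w)` -/
noncomputable def gLift (w : A) (f : A →ₐ[R] B) (b : B) (h : b * f w = 0) : Glue A w →ₐ[R] B :=
  Ideal.Quotient.liftₐ _ (Polynomial.eval₂AlgHom f b (fun _ => Commute.all _ _)) (by
    intro a ha
    have h1 : Ideal.span {Polynomial.X * Polynomial.C w} ≤
        RingHom.ker (Polynomial.eval₂AlgHom f b (fun _ => Commute.all _ _)) := by
      rw [Ideal.span_le, Set.singleton_subset_iff]
      change Polynomial.eval₂AlgHom f b (fun _ => Commute.all _ _) (Polynomial.X * Polynomial.C w) = 0
      rw [map_mul]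
      simp only [Polynomial.eval₂AlgHom_apply, Polynomial.eval₂_X, Polynomial.eval₂_C]
      exact h
    exact h1 ha)

lemma gLift_C (w : A) (f : A →ₐ[R] B) (b : B) (h : b * f w = 0) (a : A) :
    gLift w f b h (gC R w a) = f a := by
  change Polynomial.eval₂AlgHom f b (fun _ => Commute.all _ _) (Polynomial.C a) = f a
  simp only [Polynomial.eval₂AlgHom_apply, Polynomial.eval₂_C]
  rfl

lemma gLift_X (w : A) (f : A →ₐ[R] B) (b : B) (h : b * f w = 0) :
    gLift w f b h (gX w) = b := by
  change Polynomial.eval₂AlgHom f b (fun _ => Commute.all _ _) Polynomial.X = b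
  simp only [Polynomial.eval₂AlgHom_apply, Polynomial.eval₂_X]

lemma gExt {w : A} {f g : Glue A w →ₐ[R] B} (hC : ∀ a, f (gC R w a) = g (gC R w a))
    (hX : f (gX w) = g (gX w)) : f = g := by
  apply Ideal.Quotient.algHom_ext
  apply Polynomial.algHom_ext'
  · ext a
    exact hC a
  · exact hX

/-- `A[t] / (t w)` for isomorphic algebras -/
noncomputable def glueCongr (e : A ≃ₐ[R] B) (w : A) (w' : B) (h : e w = w') :
    Glue A w ≃ₐ[R] Glue B w' :=
  AlgEquiv.ofAlgHom
    (gLift w ((gC R w').comp (e : A →ₐ[R] B)) (gX w') (by
      change gX w' * gC R w' (e w) = 0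
      rw [h]
      exact gX_mul w'))
    (gLift w' ((gC R w).comp (e.symm : B →ₐ[R] A)) (gX w) (by
      change gX w * gC R w (e.symm w') = 0
      rw [← h, e.symm_apply_apply]
      exact gX_mul w))
    (by
      apply gExt
      · intro a
        rw [AlgHom.comp_apply, gLift_C]
        change gLift w _ _ _ (gC R w (e.symm a)) = _
        rw [gLift_C]
        change gC R w' (e (e.symm a)) = _
        rw [e.apply_symm_apply]
        rfl
      · rw [AlgHom.comp_apply, gLift_X, gLift_X]
        rfl)
    (by
      apply gExt
      · intro a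
        rw [AlgHom.comp_apply, gLift_C]
        change gLift w' _ _ _ (gC R w' (e a)) = _
        rw [gLift_C]
        change gC R w (e.symm (e a)) = _
        rw [e.symm_apply_apply]
        rfl
      · rw [AlgHom.comp_apply, gLift_X, gLift_X]
        rfl)

/-- the localization of `A[t] / (t w)` away from `v` is `A_v[t] / (t w)` -/
noncomputable def glueLoc (R : Type) [CommRing R] {A : Type} [CommRing A] [Algebra R A] (w v : A) :
    Localization.Away (gC R w v) ≃ₐ[R]
      Glue (Localization.Away v) (algebraMap A (Localization.Away v) w) :=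
  let S := Localization.Away v
  let w' : S := algebraMap A S w
  let L := Localization.Away (gC R w v)
  let ι : A →ₐ[R] S := IsScalarTower.toAlgHom R A S
  let κ : Glue A w →ₐ[R] L := IsScalarTower.toAlgHom R (Glue A w) L
  let h : Glue A w →ₐ[R] Glue S w' := gLift w ((gC R w').comp ι) (gX w') (gX_mul w')
  have hh : IsUnit (h (gC R w v)) := by
    have h1 : h (gC R w v) = gC R w' (algebraMap A S v) := gLift_C _ _ _ _ _
    rw [h1]
    exact (IsLocalization.Away.algebraMap_isUnit v).map _
  let F : L →ₐ[R] Glue S w' := IsLocalization.liftAlgHom (M := Submonoid.powers (gC R w v))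
    (f := h) (by
      rintro ⟨_, k, rfl⟩
      rw [map_pow]
      exact hh.pow k)
  let g : S →ₐ[R] L := IsLocalization.liftAlgHom (M := Submonoid.powers v)
    (f := κ.comp (gC R w)) (by
      rintro ⟨_, k, rfl⟩
      rw [map_pow]
      exact (IsLocalization.Away.algebraMap_isUnit (S := L) (gC R w v)).pow k)
  have hF : ∀ x, F (κ x) = h x := fun x => by
    change IsLocalization.liftAlgHom (M := Submonoid.powers (gC R w v)) (f := h) _
      (algebraMap _ _ x) = _
    rw [IsLocalization.liftAlgHom_apply, IsLocalization.lift_eq]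
    rfl
  have hg : ∀ a, g (ι a) = κ (gC R w a) := fun a => by
    change IsLocalization.liftAlgHom (M := Submonoid.powers v) (f := κ.comp (gC R w)) _
      (algebraMap _ _ a) = _
    rw [IsLocalization.liftAlgHom_apply, IsLocalization.lift_eq]
    rfl
  let Gm : Glue S w' →ₐ[R] L := gLift w' g (κ (gX w)) (by
    change κ (gX w) * g (ι w) = 0
    rw [hg, ← map_mul, gX_mul, map_zero])
  AlgEquiv.ofAlgHom F Gm
    (by
      apply gExt
      · intro a
        rw [AlgHom.comp_apply, gLift_C]
        have h2 : (F.comp g) = gC R w' := by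
          apply IsLocalization.algHom_ext (Submonoid.powers v)
          ext a
          change F (g (ι a)) = gC R w' (ι a)
          rw [hg, hF]
          exact gLift_C _ _ _ _ _
        exact DFunLike.congr_fun h2 a
      · rw [AlgHom.comp_apply, gLift_X, hF]
        exact gLift_X _ _ _ _)
    (by
      apply IsLocalization.algHom_ext (Submonoid.powers (gC R w v))
      apply gExt
      · intro a
        change Gm (F (κ (gC R w a))) = κ (gC R w a)
        rw [hF]
        have h3 : h (gC R w a) = gC R w' (ι a) := gLift_C _ _ _ _ _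
        rw [h3, gLift_C, hg]
      · change Gm (F (κ (gX w))) = κ (gX w)
        rw [hF]
        have h3 : h (gX w) = gX w' := gLift_X _ _ _ _
        rw [h3, gLift_X])

end Glue

section Pres

variable {σ κ : Type}

/-- the equations with a new variable `t` and the equation `t p = 0` -/
noncomputable def gf (f : κ → MvPolynomial σ R) (p : MvPolynomial σ R) :
    Option κ → MvPolynomial (Option σ) R :=
  fun o => o.elim (X none * rename some p) fun k => rename some (f k)

lemma gf_none (f : κ → MvPolynomial σ R) (p : MvPolynomial σ R) :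
    gf f p none = X none * rename some p := rfl

lemma gf_some (f : κ → MvPolynomial σ R) (p : MvPolynomial σ R) (k : κ) :
    gf f p (some k) = rename some (f k) := rfl

/-- the ring with the equations `f = 0` -/
abbrev Qf (f : κ → MvPolynomial σ R) : Type := MvPolynomial σ R ⧸ Ideal.span (Set.range f)

/-- the class -/
noncomputable abbrev qm (f : κ → MvPolynomial σ R) : MvPolynomial σ R →ₐ[R] Qf f :=
  Ideal.Quotient.mkₐ R _

lemma qm_zero (f : κ → MvPolynomial σ R) (k : κ) : qm f (f k) = 0 :=
  Ideal.Quotient.eq_zero_iff_mem.2 (Ideal.subset_span ⟨k, rfl⟩)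

/-- homomorphisms from the ring with the equations `f = 0` -/
noncomputable def qLift {B : Type} [CommRing B] [Algebra R B] (f : κ → MvPolynomial σ R)
    (F : MvPolynomial σ R →ₐ[R] B) (h : ∀ k, F (f k) = 0) : Qf f →ₐ[R] B :=
  Ideal.Quotient.liftₐ _ F (by
    intro a ha
    have h1 : Ideal.span (Set.range f) ≤ RingHom.ker F := by
      rw [Ideal.span_le]
      rintro _ ⟨k, rfl⟩
      exact h k
    exact h1 ha)

lemma qLift_qm {B : Type} [CommRing B] [Algebra R B] (f : κ → MvPolynomial σ R)
    (F : MvPolynomial σ R →ₐ[R] B) (h : ∀ k, F (f k) = 0) (a : MvPolynomial σ R) :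
    qLift f F h (qm f a) = F a := rfl

/-- the new variable as a presentation of `A[t] / (t w)` -/
noncomputable def presGlue (f : κ → MvPolynomial σ R) (p : MvPolynomial σ R) :
    Qf (gf f p) ≃ₐ[R] Glue (Qf f) (qm f p) :=
  let w := qm f p
  let F0 : MvPolynomial (Option σ) R →ₐ[R] Glue (Qf f) w :=
    aeval fun o => o.elim (gX w) fun s => gC R w (qm f (X s))
  have hF0 : ∀ q, F0 (rename some q) = gC R w (qm f q) := fun q => by
    have : F0.comp (rename some) = (gC R w).comp (qm f) := by
      apply MvPolynomial.algHom_ext
      intro s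
      change F0 (rename some (X s)) = gC R w (qm f (X s))
      rw [rename_X]
      exact aeval_X _ _
    exact DFunLike.congr_fun this q
  have hX : F0 (X none) = gX w := aeval_X _ _
  let F : Qf (gf f p) →ₐ[R] Glue (Qf f) w := qLift _ F0 (by
    rintro (_ | k)
    · rw [gf_none, map_mul, hX, hF0]
      exact gX_mul w
    · rw [gf_some, hF0, qm_zero, map_zero])
  let g : Qf f →ₐ[R] Qf (gf f p) := qLift _ ((qm (gf f p)).comp (rename some)) (fun k =>
    qm_zero (gf f p) (some k))
  let G : Glue (Qf f) w →ₐ[R] Qf (gf f p) := gLift w g (qm (gf f p) (X none)) (by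
    change qm (gf f p) (X none) * qm (gf f p) (rename some p) = 0
    rw [← map_mul]
    exact qm_zero (gf f p) none)
  AlgEquiv.ofAlgHom F G
    (by
      apply gExt
      · intro a
        rw [AlgHom.comp_apply, gLift_C]
        obtain ⟨q, rfl⟩ := Ideal.Quotient.mkₐ_surjective R _ a
        change F0 (rename some q) = gC R w (qm f q)
        exact hF0 q
      · rw [AlgHom.comp_apply, gLift_X]
        exact hX)
    (by
      apply Ideal.Quotient.algHom_ext
      apply MvPolynomial.algHom_ext
      rintro (_ | s)
      · change G (F0 (X none)) = qm (gf f p) (X none)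
        rw [hX]
        exact gLift_X _ _ _ _
      · change G (F0 (X (some s))) = qm (gf f p) (X (some s))
        have h1 : F0 (X (some s)) = gC R w (qm f (X s)) := aeval_X _ _
        rw [h1]
        refine (gLift_C _ _ _ _ _).trans ?_
        change qm (gf f p) (rename some (X s)) = _
        rw [rename_X])

lemma presGlue_some (f : κ → MvPolynomial σ R) (p q : MvPolynomial σ R) :
    presGlue f p (qm (gf f p) (rename some q)) = gC R (qm f p) (qm f q) := by
  have h : ((presGlue f p : _ →ₐ[R] _).comp (qm (gf f p))).comp (rename some) =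
      (gC R (qm f p)).comp (qm f) := by
    apply MvPolynomial.algHom_ext
    intro s
    change (aeval fun o => _ : MvPolynomial (Option σ) R →ₐ[R] Glue (Qf f) (qm f p))
      (rename some (X s)) = _
    rw [rename_X]
    exact aeval_X _ _
  exact DFunLike.congr_fun h q

end Pres

end Pool.Agent.Q115.DU
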