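import Pool.Agent.Q115.DU.Tri

/-!
# The additive hull of the motives of varieties, and direct factors of the motives of the cubics

`up m n A = A(m)[2 m + n]`. The class `Var` contains the motives with compact support of the affine
schemes of finite type and is closed under direct sums, direct factors, and under the shift and the
Tate twist in both directions. Every object `A` of it has an `up m n A` which is a direct factor of
the motive with compact support of one hypersurface `T(x, y, z) = 1`.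
-/

set_option autoImplicit false

open CategoryTheory CategoryTheory.Limits AlgebraicGeometry Pretriangulated

namespace Pool.Agent.Q115.DU

open Pool.Agent.Y116.UV Pool.Agent.Q193.LT

universe v u

section It

variable {C : Type u} [Category.{v} C]

/-- `A` is a direct factor of `B`. -/
def IsFactor (A B : C) : Prop := ∃ (s : A ⟶ B) (r : B ⟶ A), s ≫ r = 𝟙 A

lemma IsFactor.trans {A B E : C} (h : IsFactor A B) (h' : IsFactor B E) : IsFactor A E := by
  obtain ⟨s, r, h⟩ := h
  obtain ⟨s', r', h'⟩ := h'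
  refine ⟨s ≫ s', r' ≫ r, ?_⟩
  rw [Category.assoc, ← Category.assoc s', h', Category.id_comp, h]

lemma IsFactor.map {C' : Type*} [Category C'] (F : C ⥤ C') {A B : C} (h : IsFactor A B) :
    IsFactor (F.obj A) (F.obj B) := by
  obtain ⟨s, r, h⟩ := h
  exact ⟨F.map s, F.map r, by rw [← F.map_comp, h, F.map_id]⟩

lemma isFactor_of_iso {A B : C} (h : Nonempty (A ≅ B)) : IsFactor A B := by
  obtain ⟨e⟩ := h
  exact ⟨e.hom, e.inv, e.hom_inv_id⟩

lemma isFactor_refl (A : C) : IsFactor A A := ⟨𝟙 A, 𝟙 A, Category.comp_id _⟩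

/-- The powers of a functor. -/
def it (F : C ⥤ C) : ℕ → (C ⥤ C)
  | 0 => 𝟭 C
  | n + 1 => it F n ⋙ F

lemma it_succ (F : C ⥤ C) (n : ℕ) (A : C) : (it F (n + 1)).obj A = F.obj ((it F n).obj A) := rfl

lemma it_add (F : C ⥤ C) (n : ℕ) (A : C) :
    ∀ m : ℕ, (it F m).obj ((it F n).obj A) = (it F (n + m)).obj A
  | 0 => rfl
  | m + 1 => congrArg F.obj (it_add F n A m)

lemma iso_comp {A B E : C} (h : Nonempty (A ≅ B)) (h' : Nonempty (B ≅ E)) : Nonempty (A ≅ E) := by
  obtain ⟨e⟩ := h
  obtain ⟨e'⟩ := h'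
  exact ⟨e ≪≫ e'⟩

lemma iso_map (F : C ⥤ C) {A B : C} (h : Nonempty (A ≅ B)) : Nonempty (F.obj A ≅ F.obj B) := by
  obtain ⟨e⟩ := h
  exact ⟨F.mapIso e⟩

lemma iso_symm {A B : C} (h : Nonempty (A ≅ B)) : Nonempty (B ≅ A) := by
  obtain ⟨e⟩ := h
  exact ⟨e.symm⟩

lemma it_comm (F G : C ⥤ C) (h : ∀ A : C, Nonempty (F.obj (G.obj A) ≅ G.obj (F.obj A))) (A : C) :
    ∀ n : ℕ, Nonempty ((it F n).obj (G.obj A) ≅ G.obj ((it F n).obj A))
  | 0 => ⟨Iso.refl _⟩
  | n + 1 => iso_comp (iso_map F (it_comm F G h A n)) (h _)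

lemma it_it_comm (F G : C ⥤ C) (h : ∀ A : C, Nonempty (F.obj (G.obj A) ≅ G.obj (F.obj A))) (A : C)
    (m n : ℕ) : Nonempty ((it F n).obj ((it G m).obj A) ≅ (it G m).obj ((it F n).obj A)) :=
  iso_symm (it_comm G (it F n) (fun B => iso_symm (it_comm F G h B n)) A m)

end It

/-- The data, and an equivalence `Tw` which is the Tate twist `A ↦ A(1)[2]` as a functor. -/
structure TData (k : Type) [CommRing k] (C : Type u) [Category.{v} C] [HasShift C ℤ] extends
    CData k C where
  Tw : C ≌ C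

variable {k : Type} [CommRing k] {C : Type u} [Category.{v} C] [Preadditive C] [HasZeroObject C]
  [HasShift C ℤ] [∀ n : ℤ, (shiftFunctor C n).Additive] [Pretriangulated C]

/-- The functor `A ↦ A(m)[2 m + n]`. -/
def up (D : TData k C) (m n : ℕ) : C ⥤ C := it (shiftFunctor C (1 : ℤ)) n ⋙ it D.Tw.functor m

/-- The standard properties of motives with compact support and of the Tate twist: the twist is an
additive functor, which commutes with the shift. -/
structure IsTData (D : TData k C) : Prop where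
  compact : IsCData D.toCData
  tw : ∀ A : C, Nonempty (D.tw A ≅ D.Tw.functor.obj A)
  additive : D.Tw.functor.Additive
  comm : ∀ A : C, Nonempty ((D.Tw.functor.obj A)⟦(1 : ℤ)⟧ ≅ D.Tw.functor.obj (A⟦(1 : ℤ)⟧))

/-- The smallest class of objects which contains the motives with compact support of all affine
schemes of finite type over `k` and which is closed under direct factors, direct sums, shifts and
Tate twists (in both directions). -/
inductive Var (D : TData k C) : C → Prop
  | affine (A : Type) [CommRing A] [Algebra k A] [Algebra.FiniteType k A] : Var D (D.Mc (aff k A))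
  | factor {A B : C} : IsFactor A B → Var D B → Var D A
  | sum {A B : C} : Var D A → Var D B → Var D (A ⊞ B)
  | shift {A : C} : Var D A → Var D (A⟦(1 : ℤ)⟧)
  | unshift {A : C} : Var D (A⟦(1 : ℤ)⟧) → Var D A
  | twist {A : C} : Var D A → Var D (D.Tw.functor.obj A)
  | untwist {A : C} : Var D (D.Tw.functor.obj A) → Var D A

/-- `Z` is a hypersurface `T(x, y, z) = 1` over `k` where the coefficients of the trilinear form
`T` are in `S`. -/
def IsCubic (S : Set k) (Z : Sch k) : Prop :=
  ∃ (a b c : ℕ) (T : Fin a → Fin b → Fin c → k), (∀ i j l, T i j l ∈ S) ∧ Z = hypS T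

section Union

variable {D : CData k C}

omit [HasZeroObject C] [∀ n : ℤ, (shiftFunctor C n).Additive] [Pretriangulated C]
  [Preadditive C] [HasShift C ℤ] [Category.{v} C] in
/-- the two parts of a disjoint union -/
lemma triple_prod (R₁ R₂ : Type) [CommRing R₁] [CommRing R₂] [Algebra k R₁] [Algebra k R₂] :
    IsTriple (affMap (AlgHom.fst k R₁ R₂)) (affMap (AlgHom.snd k R₁ R₂)) := by
  refine triple_gen ((0, 1) : R₁ × R₂) (AlgHom.fst k R₁ R₂) Prod.fst_surjective (fun a => ?_)
    (AlgHom.snd k R₁ R₂) ?_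
  · change a.1 = 0 ↔ _
    constructor
    · intro h
      exact ⟨a, Prod.ext (by simp [h]) (by simp)⟩
    · rintro ⟨b, rfl⟩
      simp
  · let _ := (AlgHom.snd k R₁ R₂ : R₁ × R₂ →+* R₂).toAlgebra
    refine IsLocalization.away_of_isIdempotentElem (R := R₁ × R₂) (S := R₂)
      (e := ((0, 1) : R₁ × R₂)) ?_ ?_ ?_
    · change ((0, 1) : R₁ × R₂) * (0, 1) = (0, 1)
      simp
    · ext a
      rw [Ideal.mem_span_singleton]
      change a.2 = 0 ↔ _
      constructor
      · intro h
        exact ⟨a, Prod.ext (by simp) (by simp [h])⟩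
      · rintro ⟨b, rfl⟩
        simp
    · exact Prod.snd_surjective

/-- the part at infinity of `U = U` is empty -/
lemma triple_empty (U : Type) [CommRing U] [Algebra k U] (z : U →ₐ[k] PUnit.{1}) :
    IsTriple (affMap z) (𝟙 (aff k U)) where
  closed := closed_affMap z (fun a => ⟨0, Subsingleton.elim _ _⟩)
  opened := iso_open (Iso.refl (aff k U))
  compl := by
    have h1 : Set.range (𝟙 (aff k U) : aff k U ⟶ aff k U).left = Set.univ := by
      rw [Over.id_left]
      exact Set.range_id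
    rw [h1, Set.compl_univ, Set.range_eq_empty_iff]
    refine ⟨fun x => ?_⟩
    have hx : PrimeSpectrum PUnit.{1} := x
    exact (PrimeSpectrum.isPrime hx).ne_top (Subsingleton.elim _ _)

/-- the motive of a disjoint union is the direct sum -/
lemma sum_aff (hD : IsCData D) (R₁ R₂ : Type) [CommRing R₁] [CommRing R₂] [Algebra k R₁]
    [Algebra k R₂] [Algebra.FiniteType k R₁] [Algebra.FiniteType k R₂]
    (hf : Algebra.FiniteType k (R₁ × R₂)) :
    Nonempty (D.Mc (aff k (R₁ × R₂)) ≅ D.Mc (aff k R₁) ⊞ D.Mc (aff k R₂)) := by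
  have ht := triple_prod (k := k) R₁ R₂
  let z : R₂ →ₐ[k] PUnit.{1} :=
    { toFun := fun _ => PUnit.unit
      map_one' := rfl
      map_mul' := fun _ _ => rfl
      map_zero' := rfl
      map_add' := fun _ _ => rfl
      commutes' := fun _ => rfl }
  let z' : R₁ →ₐ[k] PUnit.{1} :=
    { toFun := fun _ => PUnit.unit
      map_one' := rfl
      map_mul' := fun _ _ => rfl
      map_zero' := rfl
      map_add' := fun _ _ => rfl
      commutes' := fun _ => rfl }
  have he := triple_empty (k := k) R₂ z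
  have h0 : IsZero (D.Mc (aff k PUnit.{1})) := by
    refine Triangle.isZero₁_of_isIso₂ _ (hD.triangle _ _ (ft_aff True) he) ?_
    change IsIso (D.res (𝟙 _))
    rw [hD.res_id _ (ft_aff True)]
    infer_instance
  have hb : D.bd (affMap (AlgHom.fst k R₁ R₂)) (affMap (AlgHom.snd k R₁ R₂)) = 0 := by
    rw [hD.natural (affMap z) (𝟙 _) _ _ (affMap z') (affMap (AlgHom.snd k R₁ R₂)) (ft_aff True) he ht
      (closed_affMap z' (fun a => ⟨0, Subsingleton.elim _ _⟩))
      (closed_affMap _ Prod.snd_surjective) ?_ (Category.id_comp _),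
      h0.eq_of_src (D.push (affMap z')) 0, Functor.map_zero, comp_zero]
    rw [← affMap_comp, ← affMap_comp]
    congr 1
  obtain ⟨e, -, -⟩ := exists_iso_binaryBiproduct_of_distTriang _
    (hD.triangle _ _ (ft_aff True) ht) hb
  exact ⟨e⟩

end Union

section Main

variable {D : TData k C}

/-- direct factors of the motives of affine schemes -/
def V0 (D : TData k C) (A : C) : Prop :=
  ∃ (R : Type) (_ : CommRing R) (_ : Algebra k R) (_ : Algebra.FiniteType k R),
    IsFactor A (D.Mc (aff k R))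

lemma v0_shift (hD : IsTData D) {A : C} (h : V0 D A) : V0 D (A⟦(1 : ℤ)⟧) := by
  obtain ⟨R, _, _, _, h⟩ := h
  have i1 : Algebra.FiniteType k (Polynomial R) :=
    Algebra.FiniteType.trans (S := R) inferInstance inferInstance
  obtain ⟨s, hs⟩ := split_open hD.compact _ _ (ft_aff True) (triple_zero k R)
    (hD.compact.zero R)
  exact ⟨LaurentPolynomial R, inferInstance, inferInstance, ft_laurent (R := k) R,
    (h.map (shiftFunctor C (1 : ℤ))).trans ⟨s, _, hs⟩⟩

lemma v0_twist (hD : IsTData D) {A : C} (h : V0 D A) : V0 D (D.Tw.functor.obj A) := by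
  obtain ⟨R, _, _, _, h⟩ := h
  have hr : Set.range (𝟙 (aff k R) : aff k R ⟶ aff k R).left =
      {x : PrimeSpectrum R | ∃ l : Fin 2, (fun _ : Fin 2 => (1 : R)) l ∉ x.asIdeal} := by
    have h1 : Set.range (𝟙 (aff k R) : aff k R ⟶ aff k R).left = Set.univ := by
      rw [Over.id_left]
      exact Set.range_id
    rw [h1]
    ext x
    simp only [Set.mem_univ, true_iff]
    exact ⟨0, fun hx => (PrimeSpectrum.isPrime (x : PrimeSpectrum R)).ne_top
      ((Ideal.eq_top_iff_one _).2 hx)⟩
  obtain ⟨e⟩ := hD.compact.bundle R 2 (fun _ => (1 : R)) (aff k R) (𝟙 _)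
    (iso_open (Iso.refl (aff k R))) hr
  refine ⟨Jou (fun _ : Fin 2 => (1 : R)), inferInstance, inferInstance, ?_, ?_⟩
  · infer_instance
  · refine (h.map D.Tw.functor).trans ?_
    obtain ⟨e'⟩ := hD.tw (D.Mc (aff k R))
    exact isFactor_of_iso ⟨e'.symm ≪≫ e.symm⟩

/-- direct sums -/
lemma v0_sum (hD : IsTData D) {A B S : C} (hA : V0 D A) (hB : V0 D B) (a : A ⟶ S) (p : S ⟶ A)
    (b : B ⟶ S) (q : S ⟶ B) (h : p ≫ a + q ≫ b = 𝟙 S) : V0 D S := by
  obtain ⟨R₁, _, _, _, s₁, r₁, h₁⟩ := hA
  obtain ⟨R₂, _, _, _, s₂, r₂, h₂⟩ := hB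
  have hf : Algebra.FiniteType k (R₁ × R₂) := inferInstance
  obtain ⟨e⟩ := sum_aff hD.compact R₁ R₂ hf
  refine ⟨R₁ × R₂, inferInstance, inferInstance, hf, (IsFactor.trans
    (B := D.Mc (aff k R₁) ⊞ D.Mc (aff k R₂)) ⟨biprod.lift (p ≫ s₁) (q ≫ s₂),
      biprod.desc (r₁ ≫ a) (r₂ ≫ b), ?_⟩ (isFactor_of_iso ⟨e.symm⟩))⟩
  rw [biprod.lift_desc, Category.assoc, ← Category.assoc s₁, h₁, Category.id_comp, Category.assoc,
    ← Category.assoc s₂, h₂, Category.id_comp, h]

omit [HasZeroObject C] [∀ n : ℤ, (shiftFunctor C n).Additive] [Pretriangulated C]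
  [Preadditive C] in
lemma up_obj (m n : ℕ) (A : C) :
    (up D m n).obj A = (it D.Tw.functor m).obj ((it (shiftFunctor C (1 : ℤ)) n).obj A) := rfl

lemma up_shift (hD : IsTData D) (m n : ℕ) (A : C) :
    Nonempty (((up D m n).obj A)⟦(1 : ℤ)⟧ ≅ (up D m (n + 1)).obj A) :=
  iso_symm (it_comm D.Tw.functor (shiftFunctor C (1 : ℤ)) (fun B => iso_symm (hD.comm B)) _ m)

omit [Preadditive C] [HasZeroObject C] [∀ n : ℤ, (shiftFunctor C n).Additive]
  [Pretriangulated C] in
lemma up_shift' (m n : ℕ) (A : C) :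
    Nonempty ((up D m n).obj (A⟦(1 : ℤ)⟧) ≅ (up D m (n + 1)).obj A) :=
  iso_map (it D.Tw.functor m) (it_comm (shiftFunctor C (1 : ℤ)) (shiftFunctor C (1 : ℤ))
    (fun _ => ⟨Iso.refl _⟩) A n)

lemma up_twist' (hD : IsTData D) (m n : ℕ) (A : C) :
    Nonempty ((up D m n).obj (D.Tw.functor.obj A) ≅ (up D (m + 1) n).obj A) :=
  iso_comp (iso_map (it D.Tw.functor m) (it_comm (shiftFunctor C (1 : ℤ)) D.Tw.functor
    hD.comm A n)) (it_comm D.Tw.functor D.Tw.functor (fun _ => ⟨Iso.refl _⟩) _ m)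

/-- composition of the functors `up` -/
lemma up_up (hD : IsTData D) (m n m' n' : ℕ) (A : C) :
    Nonempty ((up D m' n').obj ((up D m n).obj A) ≅ (up D (m + m') (n + n')).obj A) := by
  rw [up_obj, up_obj, up_obj]
  refine iso_comp (iso_map (it D.Tw.functor m') (it_it_comm _ _ hD.comm _ m n')) ?_
  rw [it_add, it_add]
  exact ⟨Iso.refl _⟩

instance additive_it (F : C ⥤ C) [F.Additive] : ∀ n, (it F n).Additive
  | 0 => inferInstanceAs (𝟭 C).Additive
  | n + 1 => by
    have := additive_it F n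
    exact inferInstanceAs (it F n ⋙ F).Additive

omit [Preadditive C] [HasZeroObject C] [∀ n : ℤ, (shiftFunctor C n).Additive]
  [Pretriangulated C] in
lemma v0_iso {A B : C} (e : Nonempty (A ≅ B)) (h : V0 D B) : V0 D A := by
  obtain ⟨R, i1, i2, i3, h⟩ := h
  exact ⟨R, i1, i2, i3, (isFactor_of_iso e).trans h⟩

lemma v0_up (hD : IsTData D) {m n : ℕ} {A : C} (h : V0 D ((up D m n).obj A)) (m' n' : ℕ) :
    V0 D ((up D (m + m') (n + n')).obj A) := by
  induction m' with
  | zero =>
    induction n' with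
    | zero => exact h
    | succ n' ih => exact v0_iso (iso_symm (up_shift hD _ _ _)) (v0_shift hD ih)
  | succ m' ih => exact v0_twist hD ih

/-- every object of `Var` is, up to shift and twist, a direct factor of the motive of an affine
scheme -/
theorem var_v0 (hD : IsTData D) {A : C} (h : Var D A) : ∃ m n : ℕ, V0 D ((up D m n).obj A) := by
  induction h with
  | affine A => exact ⟨0, 0, A, inferInstance, inferInstance, inferInstance, isFactor_refl _⟩
  | factor h _ ih =>
    obtain ⟨m, n, R, i1, i2, i3, h'⟩ := ih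
    exact ⟨m, n, R, i1, i2, i3, (h.map _).trans h'⟩
  | @sum A B _ _ ihA ihB =>
    obtain ⟨m, n, hA⟩ := ihA
    obtain ⟨m', n', hB⟩ := ihB
    have hA' := v0_up hD hA m' n'
    have hB' := v0_up hD hB m n
    rw [add_comm m', add_comm n'] at hB'
    refine ⟨m + m', n + n', v0_sum hD hA' hB' ((up D _ _).map biprod.inl)
      ((up D _ _).map biprod.fst) ((up D _ _).map biprod.inr) ((up D _ _).map biprod.snd) ?_⟩
    have := hD.additive
    have : (up D (m + m') (n + n')).Additive :=
      inferInstanceAs (it (shiftFunctor C (1 : ℤ)) (n + n') ⋙ it D.Tw.functor (m + m')).Additive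
    rw [← CategoryTheory.Functor.map_comp, ← CategoryTheory.Functor.map_comp,
      ← CategoryTheory.Functor.map_add, biprod.total, CategoryTheory.Functor.map_id]
  | @shift A _ ih =>
    obtain ⟨m, n, h⟩ := ih
    exact ⟨m, n, v0_iso (up_shift' m n A) (v0_iso (iso_symm (up_shift hD m n A))
      (v0_shift hD h))⟩
  | @unshift A _ ih =>
    obtain ⟨m, n, h⟩ := ih
    exact ⟨m, n + 1, v0_iso (iso_symm (up_shift' m n A)) h⟩
  | @twist A _ ih =>
    obtain ⟨m, n, h⟩ := ih
    exact ⟨m, n, v0_iso (up_twist' hD m n A) (v0_twist hD h)⟩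
  | @untwist A _ ih =>
    obtain ⟨m, n, h⟩ := ih
    exact ⟨m + 1, n, v0_iso (iso_symm (up_twist' hD m n A)) h⟩

/-- the direct factors of the shifts and twists satisfy the rules of descent -/
lemma desc_factor (hD : IsTData D) (X : C) : Descends D.toCData fun (j : ℤ) (A : C) =>
    ∃ m n : ℕ, (n : ℤ) = -j ∧ IsFactor ((up D m n).obj A) X where
  retract j A B s r h hB := by
    obtain ⟨m, n, hn, hf⟩ := hB
    exact ⟨m, n, hn, (IsFactor.map _ ⟨s, r, h⟩).trans hf⟩
  shift j A hA := by
    obtain ⟨m, n, hn, hf⟩ := hA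
    exact ⟨m, n + 1, by push_cast; omega, (isFactor_of_iso (iso_symm (up_shift' m n A))).trans hf⟩
  twist j A hA := by
    obtain ⟨m, n, hn, hf⟩ := hA
    refine ⟨m + 1, n, hn, (isFactor_of_iso (iso_comp (iso_symm (up_twist' hD m n A))
      (iso_map (up D m n) (iso_symm (hD.tw A))))).trans hf⟩

/-- the cubics with coefficients in `S` are enough -/
lemma one_cubic {S : Set k} (hD : IsCData D.toCData) [IsNoetherianRing k]
    (hS : S = Set.univ ∨ (Frac k ∧ S = {0, 1})) (A : Type) [CommRing A] [Algebra k A]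
    [Algebra.FiniteType k A] : ∃ Z : Sch k, IsCubic S Z ∧ Dom D.toCData 3 Z (aff k A) := by
  rcases hS with rfl | ⟨hk, rfl⟩
  · obtain ⟨a, b, c, T, hT, h⟩ := dom_affine (rules hD) (S := Set.univ) trivial trivial
      presents_univ A
    exact ⟨_, ⟨a, b, c, T, hT, rfl⟩, h⟩
  · obtain ⟨a, b, c, T, hT, h⟩ := dom_affine (rules hD) (S := {0, 1}) (Or.inl rfl) (Or.inr rfl)
      (presents_frac hk) A
    exact ⟨_, ⟨a, b, c, T, hT, rfl⟩, h⟩

/-- **One cubic for each affine scheme**, in terms of direct factors: `Mc X (m) [2 m + 3]` is a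
direct factor. -/
theorem affine_factor {S : Set k} [IsNoetherianRing k] (hD : IsTData D)
    (hS : S = Set.univ ∨ (Frac k ∧ S = {0, 1})) (A : Type) [CommRing A] [Algebra k A]
    [Algebra.FiniteType k A] : ∃ Z : Sch k, IsCubic S Z ∧ ∃ m : ℕ,
      IsFactor ((up D m 3).obj (D.Mc (aff k A))) (D.Mc Z) := by
  obtain ⟨Z, hZ, h⟩ := one_cubic hD.compact hS A
  obtain ⟨m, n, hn, hf⟩ := h _ (desc_factor hD (D.Mc Z)) (-3)
    ⟨0, 0, by norm_num, isFactor_refl _⟩
  obtain rfl : n = 3 := by omega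
  exact ⟨Z, hZ, m, hf⟩

/-- **One cubic for each object of `Var`.** -/
theorem var_factor {S : Set k} [IsNoetherianRing k] (hD : IsTData D)
    (hS : S = Set.univ ∨ (Frac k ∧ S = {0, 1})) {A : C} (h : Var D A) :
    ∃ Z : Sch k, IsCubic S Z ∧ ∃ m n : ℕ, IsFactor ((up D m n).obj A) (D.Mc Z) := by
  obtain ⟨m, n, R, _, _, _, h⟩ := var_v0 hD h
  obtain ⟨Z, hZ, m', h'⟩ := affine_factor hD hS R
  exact ⟨Z, hZ, m + m', n + 3, (isFactor_of_iso (iso_symm (up_up hD m n m' 3 A))).trans
    ((h.map (up D m' 3)).trans h')⟩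

end Main

end Pool.Agent.Q115.DU
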