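import Pool.Agent.Q115.DU.Rules

/-!
# Closed and open subschemes of affine schemes
-/

set_option autoImplicit false

open CategoryTheory AlgebraicGeometry

namespace Pool.Agent.Q115.DU

open Pool.Agent.Y116.UV

variable {R : Type} [CommRing R]

section Triple

variable {A B L : Type} [CommRing A] [CommRing B] [CommRing L] [Algebra R A] [Algebra R B]
  [Algebra R L]

lemma opened_of (w : A) (ψ : A →ₐ[R] L)
    (hψ : @IsLocalization.Away A _ w L _ (ψ : A →+* L).toAlgebra) :
    IsOpenImmersion (affMap ψ).left := by
  let _ := (ψ : A →+* L).toAlgebra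
  have := hψ
  exact IsOpenImmersion.of_isLocalization (R := A) (S := L) w

lemma range_opened (w : A) (ψ : A →ₐ[R] L)
    (hψ : @IsLocalization.Away A _ w L _ (ψ : A →+* L).toAlgebra) :
    Set.range (affMap ψ).left = {x : PrimeSpectrum A | w ∉ x.asIdeal} := by
  let _ := (ψ : A →+* L).toAlgebra
  have := hψ
  exact PrimeSpectrum.localization_away_comap_range L w

lemma triple_gen (w : A) (π : A →ₐ[R] B) (hπ : Function.Surjective π)
    (hker : ∀ a, π a = 0 ↔ w ∣ a) (ψ : A →ₐ[R] L)
    (hψ : @IsLocalization.Away A _ w L _ (ψ : A →+* L).toAlgebra) :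
    IsTriple (affMap π) (affMap ψ) where
  closed := closed_affMap _ hπ
  opened := opened_of w ψ hψ
  compl := by
    rw [range_affMap _ hπ, range_opened w ψ hψ]
    ext x
    change (∀ a, π a = 0 → a ∈ x.asIdeal) ↔ ¬ (w ∉ x.asIdeal)
    rw [not_not]
    constructor
    · intro h
      exact h w ((hker w).2 dvd_rfl)
    · intro h a ha
      obtain ⟨b, rfl⟩ := (hker a).1 ha
      exact Ideal.mul_mem_right _ _ h

end Triple

section Jou

variable {A : Type} [CommRing A] [Algebra R A] {m : ℕ} (f : Fin m → A)

/-- the functions on the closed subscheme `f = 0` -/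
noncomputable def mkq (R : Type) [CommRing R] {A : Type} [CommRing A] [Algebra R A] {m : ℕ}
    (f : Fin m → A) : A →ₐ[R] A ⧸ Ideal.span (Set.range f) :=
  Ideal.Quotient.mkₐ R (Ideal.span (Set.range f))

lemma mkq_surjective : Function.Surjective (mkq R f) := Ideal.Quotient.mkₐ_surjective R _

lemma mkq_zero (l : Fin m) : mkq R f (f l) = 0 :=
  Ideal.Quotient.eq_zero_iff_mem.mpr (Ideal.subset_span ⟨l, rfl⟩)

/-- the closed subscheme `f = 0` and its complement -/
lemma triple_jou : IsTriple (affMap (mkq R f)) (opnMap (aff R A) (neOpen R f)) := by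
  refine ⟨closed_affMap _ (mkq_surjective f), inferInstance, ?_⟩
  rw [range_affMap _ (mkq_surjective f), range_opnMap]
  ext x
  change (∀ a, Ideal.Quotient.mk (Ideal.span (Set.range f)) a = 0 → a ∈ x.asIdeal) ↔
    ¬ ∃ l, f l ∉ x.asIdeal
  push Not
  constructor
  · intro h l
    exact h (f l) (mkq_zero (R := R) f l)
  · intro h a ha
    rw [Ideal.Quotient.eq_zero_iff_mem] at ha
    refine (Ideal.span_le.mpr ?_ : Ideal.span (Set.range f) ≤ x.asIdeal) ha
    rintro _ ⟨l, rfl⟩
    exact h l

end Jou

section Zero

variable (R) (A : Type) [CommRing A] [Algebra R A]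

/-- the value at zero -/
noncomputable def ev0 : Polynomial A →ₐ[R] A :=
  Polynomial.eval₂AlgHom (AlgHom.id R A) 0 (fun _ => Commute.all _ _)

lemma ev0_X : ev0 R A Polynomial.X = 0 := by
  change Polynomial.eval₂ _ _ _ = _
  exact Polynomial.eval₂_X _ _

lemma ev0_C (a : A) : ev0 R A (Polynomial.C a) = a := by
  change Polynomial.eval₂ _ _ _ = _
  exact Polynomial.eval₂_C _ _

lemma ev0_apply (p : Polynomial A) : ev0 R A p = p.coeff 0 := by
  have : (ev0 R A : Polynomial A →+* A) = Polynomial.constantCoeff := by
    apply Polynomial.ringHom_ext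
    · intro a
      exact (ev0_C R A a).trans (by simp)
    · exact (ev0_X R A).trans (by simp)
  exact DFunLike.congr_fun this p

/-- polynomials as Laurent polynomials -/
noncomputable def toL : Polynomial A →ₐ[R] LaurentPolynomial A :=
  (Polynomial.toLaurentAlg (R := A)).restrictScalars R

/-- the zero section and its complement -/
lemma triple_zero : IsTriple (affMap (ev0 R A)) (affMap (toL R A)) := by
  refine triple_gen Polynomial.X (ev0 R A) (fun a => ⟨Polynomial.C a, ev0_C R A a⟩) (fun p => ?_)
    (toL R A) ?_
  · rw [ev0_apply, Polynomial.X_dvd_iff]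
  · have h : IsLocalization.Away (Polynomial.X : Polynomial A) (LaurentPolynomial A) := inferInstance
    exact h

end Zero

section Glue

variable {A : Type} [CommRing A] [Algebra R A] (w : A)

/-- the functions on the component `w = 0` -/
noncomputable def piG (R : Type) [CommRing R] {A : Type} [CommRing A] [Algebra R A] (w : A) :
    Glue A w →ₐ[R] Polynomial (A ⧸ Ideal.span {w}) :=
  gLift w (Polynomial.CAlgHom.comp (Ideal.Quotient.mkₐ R (Ideal.span {w}))) Polynomial.X (by
    change Polynomial.X * Polynomial.C (Ideal.Quotient.mk (Ideal.span {w}) w) = 0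
    rw [Ideal.Quotient.eq_zero_iff_mem.2 (Ideal.mem_span_singleton_self w), map_zero, mul_zero])

lemma piG_mk (p : Polynomial A) :
    piG R w (Ideal.Quotient.mk _ p) = p.map (Ideal.Quotient.mk (Ideal.span {w})) := by
  have : ((piG R w : Glue A w →+* Polynomial (A ⧸ Ideal.span {w})).comp
      (Ideal.Quotient.mk (Ideal.span {Polynomial.X * Polynomial.C w}))) =
      Polynomial.mapRingHom (Ideal.Quotient.mk (Ideal.span {w})) := by
    apply Polynomial.ringHom_ext
    · intro a
      change piG R w (gC R w a) = _
      rw [piG, gLift_C]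
      simp
    · change piG R w (gX w) = _
      rw [piG, gLift_X]
      simp
  exact DFunLike.congr_fun this p

/-- the functions on the component `t = 0` -/
noncomputable def xG (R : Type) [CommRing R] {A : Type} [CommRing A] [Algebra R A] (w : A) :
    Glue A w →ₐ[R] A :=
  gLift w (AlgHom.id R A) 0 (zero_mul _)

lemma xG_C (a : A) : xG R w (gC R w a) = a := gLift_C _ _ _ _ _

lemma xG_X : xG R w (gX w) = 0 := gLift_X _ _ _ _

/-- the functions on the open part `w ≠ 0` -/
noncomputable def psG (R : Type) [CommRing R] {A : Type} [CommRing A] [Algebra R A] (w : A) :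
    Glue A w →ₐ[R] Localization.Away w :=
  (IsScalarTower.toAlgHom R A (Localization.Away w)).comp (xG R w)

/-- every element is `a + t b` -/
lemma glue_split (e : Glue A w) : ∃ (a : A) (b : Glue A w), e = gC R w a + gX w * b := by
  obtain ⟨p, rfl⟩ := Ideal.Quotient.mk_surjective e
  refine ⟨p.coeff 0, Ideal.Quotient.mk _ p.divX, ?_⟩
  rw [gC_apply, gX, ← map_mul, ← map_add]
  congr 1
  rw [add_comm]
  exact (Polynomial.X_mul_divX_add p).symm

lemma isLoc_glue : @IsLocalization.Away (Glue A w) _ (gC R w w) (Localization.Away w) _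
    (psG R w : Glue A w →+* Localization.Away w).toAlgebra := by
  let _ := (psG R w : Glue A w →+* Localization.Away w).toAlgebra
  have hps : ∀ a, algebraMap (Glue A w) (Localization.Away w) (gC R w a) =
      algebraMap A (Localization.Away w) a := by
    intro a
    change algebraMap A (Localization.Away w) (xG R w (gC R w a)) = _
    rw [xG_C]
  have hpX : algebraMap (Glue A w) (Localization.Away w) (gX w) = 0 := by
    change algebraMap A (Localization.Away w) (xG R w (gX w)) = _
    rw [xG_X, map_zero]
  have hmul : ∀ (b : Glue A w), gC R w w * (gX w * b) = 0 := by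
    intro b
    rw [← mul_assoc, mul_comm (gC R w w), gX_mul, zero_mul]
  refine IsLocalization.Away.mk (gC R w w) ?_ ?_ ?_
  · rw [hps]
    exact IsLocalization.Away.algebraMap_isUnit w
  · intro s
    obtain ⟨n, a, h⟩ := IsLocalization.Away.surj w s
    refine ⟨n, gC R w a, ?_⟩
    rw [hps, hps]
    exact h
  · intro x y h
    obtain ⟨a, a', rfl⟩ := glue_split (R := R) w x
    obtain ⟨b, b', rfl⟩ := glue_split (R := R) w y
    rw [map_add, map_add, map_mul, map_mul, hpX, zero_mul, zero_mul, add_zero, add_zero, hps,
      hps] at h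
    obtain ⟨n, hn⟩ := IsLocalization.Away.exists_of_eq w h
    refine ⟨n + 1, ?_⟩
    have e1 : ∀ (c : A) (c' : Glue A w), gC R w w ^ (n + 1) * (gC R w c + gX w * c') =
        gC R w (w * (w ^ n * c)) := by
      intro c c'
      rw [pow_succ, mul_assoc, mul_add, hmul, add_zero, ← map_mul, ← map_pow, ← map_mul]
      congr 1
      ring
    rw [e1, e1, hn]

/-- the component `w = 0` and the open part `w ≠ 0` -/
lemma triple_glue : IsTriple (affMap (piG R w)) (affMap (psG R w)) := by
  refine triple_gen (gC R w w) (piG R w) ?_ ?_ (psG R w) (isLoc_glue w)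
  · intro q
    obtain ⟨p, rfl⟩ := Polynomial.map_surjective _ Ideal.Quotient.mk_surjective q
    exact ⟨Ideal.Quotient.mk _ p, piG_mk w p⟩
  · intro e
    obtain ⟨p, rfl⟩ := Ideal.Quotient.mk_surjective e
    constructor
    · intro h
      rw [piG_mk] at h
      have h1 : Polynomial.C w ∣ p := by
        rw [Polynomial.C_dvd_iff_dvd_coeff]
        intro i
        have h2 := congrArg (fun q => Polynomial.coeff q i) h
        simp only [Polynomial.coeff_map, Polynomial.coeff_zero] at h2
        rw [Ideal.Quotient.eq_zero_iff_mem, Ideal.mem_span_singleton] at h2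
        exact h2
      obtain ⟨q, rfl⟩ := h1
      rw [map_mul]
      exact ⟨Ideal.Quotient.mk _ q, rfl⟩
    · rintro ⟨q, h⟩
      rw [h, map_mul]
      have : piG R w (gC R w w) = 0 := by
        rw [gC_apply, piG_mk, Polynomial.map_C,
          Ideal.Quotient.eq_zero_iff_mem.2 (Ideal.mem_span_singleton_self w), map_zero]
      rw [this, zero_mul]

lemma xG_surjective : Function.Surjective (xG R w) := fun a => ⟨gC R w a, xG_C w a⟩

/-- the square of closed immersions -/
lemma square_glue : affMap (Ideal.Quotient.mkₐ R (Ideal.span {w})) ≫ affMap (xG R w) =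
    affMap (ev0 R (A ⧸ Ideal.span {w})) ≫ affMap (piG R w) := by
  rw [← affMap_comp, ← affMap_comp]
  congr 1
  apply gExt
  · intro a
    change Ideal.Quotient.mk _ (xG R w (gC R w a)) = ev0 R _ (piG R w (gC R w a))
    rw [xG_C, gC_apply, piG_mk, Polynomial.map_C, ev0_C]
  · change Ideal.Quotient.mk _ (xG R w (gX w)) = ev0 R _ (piG R w (gX w))
    rw [xG_X, map_zero, piG, gLift_X, ev0_X]

/-- the open part -/
lemma open_glue : affMap (IsScalarTower.toAlgHom R A (Localization.Away w)) ≫ affMap (xG R w) =
    affMap (psG R w) := by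
  rw [← affMap_comp]
  rfl

end Glue

section Swap

variable (R) (B : Type) [CommRing B] [Algebra R B]

/-- from `B[s][t, 1/t]` to `B[t, 1/t][s]` -/
noncomputable def swF : LaurentPolynomial (Polynomial B) →+* Polynomial (LaurentPolynomial B) :=
  LaurentPolynomial.eval₂ (Polynomial.mapRingHom LaurentPolynomial.C)
    ((LaurentPolynomial.isUnit_T 1).map
      (Polynomial.C : LaurentPolynomial B →+* Polynomial (LaurentPolynomial B))).unit

/-- from `B[t, 1/t][s]` to `B[s][t, 1/t]` -/
noncomputable def swG : Polynomial (LaurentPolynomial B) →+* LaurentPolynomial (Polynomial B) :=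
  Polynomial.eval₂RingHom (LaurentPolynomial.eval₂
    ((LaurentPolynomial.C : Polynomial B →+* _).comp Polynomial.C)
    (LaurentPolynomial.isUnit_T 1).unit) (LaurentPolynomial.C Polynomial.X)

lemma swF_C (p : Polynomial B) :
    swF B (LaurentPolynomial.C p) = p.map LaurentPolynomial.C := by
  rw [swF, LaurentPolynomial.eval₂_C]
  rfl

lemma swF_T : swF B (LaurentPolynomial.T 1) = Polynomial.C (LaurentPolynomial.T 1) := by
  rw [swF, LaurentPolynomial.eval₂_T, zpow_one]
  rfl

lemma swG_C (a : LaurentPolynomial B) : swG B (Polynomial.C a) = LaurentPolynomial.eval₂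
    ((LaurentPolynomial.C : Polynomial B →+* _).comp Polynomial.C)
    (LaurentPolynomial.isUnit_T 1).unit a := by
  rw [swG, Polynomial.coe_eval₂RingHom, Polynomial.eval₂_C]

lemma swG_CC (b : B) : swG B (Polynomial.C (LaurentPolynomial.C b)) =
    LaurentPolynomial.C (Polynomial.C b) := by
  rw [swG_C, LaurentPolynomial.eval₂_C]
  rfl

lemma swG_CT : swG B (Polynomial.C (LaurentPolynomial.T 1)) = LaurentPolynomial.T 1 := by
  rw [swG_C, LaurentPolynomial.eval₂_T, zpow_one]
  rfl

lemma swG_X : swG B Polynomial.X = LaurentPolynomial.C Polynomial.X := by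
  rw [swG, Polynomial.coe_eval₂RingHom, Polynomial.eval₂_X]

/-- exchange of the two variables -/
noncomputable def sw : LaurentPolynomial (Polynomial B) ≃ₐ[R] Polynomial (LaurentPolynomial B) :=
  AlgEquiv.ofRingEquiv (f := RingEquiv.ofRingHom (swF B) (swG B)
    (by
      apply Polynomial.ringHom_ext
      · intro a
        have : ((swF B).comp (swG B)).comp Polynomial.C =
            (RingHom.id (Polynomial (LaurentPolynomial B))).comp Polynomial.C := by
          apply laurent_hom_ext
          · intro b
            change swF B (swG B (Polynomial.C (LaurentPolynomial.C b))) = _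
            rw [swG_CC, swF_C, Polynomial.map_C]
            rfl
          · change swF B (swG B (Polynomial.C (LaurentPolynomial.T 1))) = _
            rw [swG_CT, swF_T]
            rfl
        exact DFunLike.congr_fun this a
      · change swF B (swG B Polynomial.X) = _
        rw [swG_X, swF_C, Polynomial.map_X]
        rfl)
    (by
      apply laurent_hom_ext
      · intro p
        have : ((swG B).comp (swF B)).comp LaurentPolynomial.C =
            (RingHom.id (LaurentPolynomial (Polynomial B))).comp LaurentPolynomial.C := by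
          apply Polynomial.ringHom_ext
          · intro b
            change swG B (swF B (LaurentPolynomial.C (Polynomial.C b))) = _
            rw [swF_C, Polynomial.map_C, swG_CC]
            rfl
          · change swG B (swF B (LaurentPolynomial.C Polynomial.X)) = _
            rw [swF_C, Polynomial.map_X, swG_X]
            rfl
        exact DFunLike.congr_fun this p
      · change swG B (swF B (LaurentPolynomial.T 1)) = _
        rw [swF_T, swG_CT]
        rfl))
    (fun r => by
      change swF B (LaurentPolynomial.C (Polynomial.C (algebraMap R B r))) = _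
      rw [swF_C, Polynomial.map_C]
      rfl)

/-- exchange of the two variables, as a homomorphism -/
noncomputable def swA : LaurentPolynomial (Polynomial B) →ₐ[R] Polynomial (LaurentPolynomial B) :=
  (sw R B).toAlgHom

/-- the inclusion of the open part `s t ≠ 0` of `𝔸² × Spec B` -/
noncomputable def inTwo : PP B →ₐ[R] LaurentPolynomial (LaurentPolynomial B) :=
  ((toL R (LaurentPolynomial B)).comp (swA R B)).comp (toL R (Polynomial B))

lemma inTwo_unit : IsUnit (inTwo R B (Polynomial.X * Polynomial.C Polynomial.X)) := by
  rw [map_mul]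
  apply IsUnit.mul
  · change IsUnit (toL R (LaurentPolynomial B) (swF B (Polynomial.toLaurent Polynomial.X)))
    rw [Polynomial.toLaurent_X, swF_T]
    exact ((LaurentPolynomial.isUnit_T 1).map Polynomial.C).map (toL R (LaurentPolynomial B))
  · change IsUnit (toL R (LaurentPolynomial B) (swF B (Polynomial.toLaurent
      (Polynomial.C Polynomial.X))))
    rw [Polynomial.toLaurent_C, swF_C, Polynomial.map_X]
    change IsUnit (Polynomial.toLaurent Polynomial.X)
    rw [Polynomial.toLaurent_X]
    exact LaurentPolynomial.isUnit_T 1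

end Swap

end Pool.Agent.Q115.DU
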