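import Pool.Agent.Q115.DU.Fac

/-!
# Weights and degrees of the direct factors
-/

set_option autoImplicit false

open CategoryTheory CategoryTheory.Limits AlgebraicGeometry Pretriangulated

namespace Pool.Agent.Q115.DU

open Pool.Agent.Y116.UV Pool.Agent.Q193.LT

universe v u v' u'

/-- The motives with compact support and the Tate twist (`TData`), a category of motives `E` (like
the André motives) with the Tate twist `t`, `t N = N(1)`, and the functors
`Gr w j A = Gr^W_w H_j(A)`. -/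
structure GData (k : Type) [CommRing k] (C : Type u) [Category.{v} C] [HasShift C ℤ]
    (E : Type u') [Category.{v'} E] extends TData k C where
  t : E ≌ E
  Gr : ℤ → ℤ → (C ⥤ E)

variable {k : Type} [CommRing k] {C : Type u} [Category.{v} C] [Preadditive C] [HasZeroObject C]
  [HasShift C ℤ] [∀ n : ℤ, (shiftFunctor C n).Additive] [Pretriangulated C]
  {E : Type u'} [Category.{v'} E]

/-- The standard properties.

* `motives`: localization triangles and their naturality, affine bundles, zero sections, and the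
  additive Tate twist (`IsTData`, `IsCData`);
* `shift`: `Gr^W_w H_{j+1}(A[1]) = Gr^W_w H_j(A)`;
* `twist`: `Gr^W_w H_{j+2}(A(1)[2]) = (Gr^W_{w+2} H_j(A))(1)`;
* `jouanolou`: for smooth `X` there is an affine bundle over `X` whose total space is affine
  (Jouanolou, Thomason). -/
structure IsGData (D : GData k C E) : Prop where
  motives : IsTData D.toTData
  shift : ∀ (w j : ℤ) (A : C), Nonempty ((D.Gr w (j + 1)).obj (A⟦(1 : ℤ)⟧) ≅ (D.Gr w j).obj A)
  twist : ∀ (w j : ℤ) (A : C),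
    Nonempty ((D.Gr w (j + 2)).obj (D.Tw.functor.obj A) ≅ D.t.functor.obj ((D.Gr (w + 2) j).obj A))
  jouanolou : ∀ X : Sch k, FT True X → Smooth X.hom →
    ∃ (A : Type) (_ : CommRing A) (_ : Algebra k A) (_ : Algebra.FiniteType k A) (r : ℕ),
      Nonempty (D.Mc (aff k A) ≅ (it D.Tw.functor r).obj (D.Mc X))

variable {D : GData k C E}

lemma gr_shift (hD : IsGData D) (w : ℤ) (A : C) : ∀ (n : ℕ) (j : ℤ),
    Nonempty ((D.Gr w (j + n)).obj ((it (shiftFunctor C (1 : ℤ)) n).obj A) ≅ (D.Gr w j).obj A)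
  | 0, j => by
    rw [Nat.cast_zero, add_zero]
    exact ⟨Iso.refl _⟩
  | n + 1, j => by
    have h1 := hD.shift w (j + n) ((it (shiftFunctor C (1 : ℤ)) n).obj A)
    obtain ⟨e⟩ := gr_shift hD w A n j
    obtain ⟨e'⟩ := h1
    have h2 : j + ((n + 1 : ℕ) : ℤ) = j + n + 1 := by push_cast; ring
    rw [h2]
    exact ⟨e' ≪≫ e⟩

lemma gr_twist (hD : IsGData D) (A : C) : ∀ (m : ℕ) (w j : ℤ),
    Nonempty ((D.Gr w (j + 2 * m)).obj ((it D.Tw.functor m).obj A) ≅
      (it D.t.functor m).obj ((D.Gr (w + 2 * m) j).obj A))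
  | 0, w, j => by
    rw [Nat.cast_zero, mul_zero, add_zero, add_zero]
    exact ⟨Iso.refl _⟩
  | m + 1, w, j => by
    obtain ⟨e'⟩ := hD.twist w (j + 2 * m) ((it D.Tw.functor m).obj A)
    obtain ⟨e⟩ := gr_twist hD A m (w + 2) j
    have h2 : j + 2 * ((m + 1 : ℕ) : ℤ) = j + 2 * m + 2 := by push_cast; ring
    have h3 : w + 2 * ((m + 1 : ℕ) : ℤ) = w + 2 + 2 * m := by push_cast; ring
    rw [h2, h3]
    exact ⟨e' ≪≫ D.t.functor.mapIso e⟩

/-- `Gr^W_w H_{j+2m+n} (A(m)[2m+n]) = (Gr^W_{w+2m} H_j(A))(m)` -/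
lemma gr_up (hD : IsGData D) (m n : ℕ) (w j : ℤ) (A : C) :
    Nonempty ((D.Gr w (j + 2 * m + n)).obj ((up D.toTData m n).obj A) ≅
      (it D.t.functor m).obj ((D.Gr (w + 2 * m) j).obj A)) := by
  obtain ⟨e⟩ := gr_twist hD ((it (shiftFunctor C (1 : ℤ)) n).obj A) m w (j + n)
  obtain ⟨e'⟩ := gr_shift hD (w + 2 * m) A n j
  have h : j + 2 * m + n = j + n + 2 * m := by ring
  rw [h]
  exact ⟨e ≪≫ (it D.t.functor m).mapIso e'⟩

omit [Preadditive C] [HasZeroObject C] [HasShift C ℤ] [∀ n : ℤ, (shiftFunctor C n).Additive]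
  [Pretriangulated C] in
lemma factor_it {F : C ⥤ C} {A B : C} (h : IsFactor A B) (n : ℕ) :
    IsFactor ((it F n).obj A) ((it F n).obj B) :=
  h.map _

/-- one affine scheme for finitely many smooth schemes -/
lemma one_affine (hD : IsGData D) : ∀ L : List (Sch k),
    (∀ X ∈ L, FT True X ∧ Smooth X.hom) →
    ∃ (A : Type) (_ : CommRing A) (_ : Algebra k A) (_ : Algebra.FiniteType k A),
      ∀ X ∈ L, ∃ r : ℕ, IsFactor ((it D.Tw.functor r).obj (D.Mc X)) (D.Mc (aff k A))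
  | [], _ => ⟨k, inferInstance, inferInstance, inferInstance, fun X hX => by simp at hX⟩
  | X :: L, hL => by
    obtain ⟨A, _, _, _, h⟩ := one_affine hD L fun Y hY => hL Y (List.mem_cons_of_mem _ hY)
    obtain ⟨h1, h2⟩ := hL X List.mem_cons_self
    obtain ⟨B, _, _, _, r, e⟩ := hD.jouanolou X h1 h2
    have hf : Algebra.FiniteType k (B × A) := inferInstance
    obtain ⟨e'⟩ := sum_aff hD.motives.compact B A hf
    refine ⟨B × A, inferInstance, inferInstance, hf, fun Y hY => ?_⟩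
    rcases List.mem_cons.1 hY with rfl | hY
    · refine ⟨r, (isFactor_of_iso (iso_symm e)).trans (IsFactor.trans (B := D.Mc (aff k B) ⊞
        D.Mc (aff k A)) ⟨biprod.inl, biprod.fst, biprod.inl_fst⟩ (isFactor_of_iso ⟨e'.symm⟩))⟩
    · obtain ⟨r', h'⟩ := h Y hY
      exact ⟨r', h'.trans (IsFactor.trans (B := D.Mc (aff k B) ⊞
        D.Mc (aff k A)) ⟨biprod.inr, biprod.snd, biprod.inr_snd⟩ (isFactor_of_iso ⟨e'.symm⟩))⟩

/-- **One cubic for finitely many smooth schemes.** The motives `Gr^W_{w+2m} H_j(X)(m)`, where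
`m` depends on `X`, are direct factors of `Gr^W_w H_{j+2m+3}(Z)`, for all `w` and `j`. -/
theorem list_factor {S : Set k} [IsNoetherianRing k] (hD : IsGData D)
    (hS : S = Set.univ ∨ (Frac k ∧ S = {0, 1})) (L : List (Sch k))
    (hL : ∀ X ∈ L, FT True X ∧ Smooth X.hom) : ∃ Z : Sch k, IsCubic S Z ∧ ∀ X ∈ L, ∃ m : ℕ,
      ∀ w j : ℤ, IsFactor ((it D.t.functor m).obj ((D.Gr (w + 2 * m) j).obj (D.Mc X)))
        ((D.Gr w (j + 2 * m + 3)).obj (D.Mc Z)) := by
  obtain ⟨A, _, _, _, h⟩ := one_affine hD L hL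
  obtain ⟨Z, hZ, m, hF⟩ := affine_factor hD.motives hS A
  refine ⟨Z, hZ, fun X hX => ?_⟩
  obtain ⟨r, hr⟩ := h X hX
  refine ⟨r + m, fun w j => ?_⟩
  have h1 : IsFactor ((up D.toTData (r + m) 3).obj (D.Mc X)) (D.Mc Z) := by
    have h2 := up_up hD.motives r 0 m 3 (D.Mc X)
    rw [zero_add] at h2
    exact (isFactor_of_iso (iso_symm h2)).trans ((hr.map (up D.toTData m 3)).trans hF)
  have h3 := h1.map (D.Gr w (j + 2 * (r + m : ℕ) + (3 : ℕ)))
  obtain ⟨e⟩ := gr_up hD (r + m) 3 w j (D.Mc X)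
  have h4 : IsFactor ((it D.t.functor (r + m)).obj ((D.Gr (w + 2 * (r + m : ℕ)) j).obj (D.Mc X)))
      ((D.Gr w (j + 2 * (r + m : ℕ) + (3 : ℕ))).obj (D.Mc Z)) :=
    IsFactor.trans ⟨e.inv, e.hom, e.inv_hom_id⟩ h3
  exact_mod_cast h4

end Pool.Agent.Q115.DU
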