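import Pool.Agent.Q115.DU.Wt

/-!
# Weight complexes and projectors: reduction to cubic hypersurfaces
-/

set_option autoImplicit false

open CategoryTheory CategoryTheory.Limits AlgebraicGeometry Pretriangulated

namespace Pool.Agent.Q115.DU

open Pool.Agent.Y116.UV Pool.Agent.Q193.LT

universe v u v' u'

section List

variable {k : Type} [CommRing k] {C : Type u} [Category.{v} C] [Preadditive C] [HasZeroObject C]
  [HasShift C ℤ] [∀ n : ℤ, (shiftFunctor C n).Additive] [Pretriangulated C] {D : CData k C}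

/-- For smooth `X` there is an affine bundle over `X` whose total space is affine (Jouanolou,
Thomason): its motive with compact support is a Tate twist of the one of `X`. -/
def Jouanolou (D : CData k C) : Prop :=
  ∀ X : Sch k, FT True X → Smooth X.hom →
    ∃ (A : Type) (_ : CommRing A) (_ : Algebra k A) (_ : Algebra.FiniteType k A) (r : ℕ),
      Nonempty (D.Mc (aff k A) ≅ D.tw^[r] (D.Mc X))

/-- one affine scheme for finitely many smooth schemes -/
lemma list_aff (hD : IsCData D) (hJ : Jouanolou D) : ∀ L : List (Sch k),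
    (∀ X ∈ L, FT True X ∧ Smooth X.hom) →
    ∃ (A : Type) (_ : CommRing A) (_ : Algebra k A) (_ : Algebra.FiniteType k A),
      ∀ X ∈ L, Dom D 0 (aff k A) X
  | [], _ => ⟨k, inferInstance, inferInstance, inferInstance, fun X hX => by simp at hX⟩
  | X :: L, hL => by
    obtain ⟨A, _, _, _, h⟩ := list_aff hD hJ L fun Y hY => hL Y (List.mem_cons_of_mem _ hY)
    obtain ⟨h1, h2⟩ := hL X List.mem_cons_self
    obtain ⟨B, _, _, _, r, e⟩ := hJ X h1 h2
    have hf : Algebra.FiniteType k (B × A) := inferInstance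
    obtain ⟨e'⟩ := sum_aff hD B A hf
    refine ⟨B × A, inferInstance, inferInstance, hf, fun Y hY => ?_⟩
    rcases List.mem_cons.1 hY with rfl | hY
    · intro P hP n hn
      rw [Nat.cast_zero, add_zero] at hn
      exact desc_tw hP _ r (desc_iso hP e (hP.retract n biprod.inl biprod.fst biprod.inl_fst
        (desc_iso hP ⟨e'⟩ hn)))
    · intro P hP n hn
      rw [Nat.cast_zero, add_zero] at hn
      refine h Y hY P hP n ?_
      rw [Nat.cast_zero, add_zero]
      exact hP.retract n biprod.inr biprod.snd biprod.inr_snd (desc_iso hP ⟨e'⟩ hn)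

/-- the cubics with coefficients in `S` are enough -/
lemma one_cub {S : Set k} (hD : IsCData D) [IsNoetherianRing k]
    (hS : S = Set.univ ∨ (Frac k ∧ S = {0, 1})) (A : Type) [CommRing A] [Algebra k A]
    [Algebra.FiniteType k A] : ∃ Z : Sch k, IsCubic S Z ∧ Dom D 3 Z (aff k A) := by
  rcases hS with rfl | ⟨hk, rfl⟩
  · obtain ⟨a, b, c, T, hT, h⟩ := dom_affine (rules hD) (S := Set.univ) trivial trivial
      presents_univ A
    exact ⟨_, ⟨a, b, c, T, hT, rfl⟩, h⟩
  · obtain ⟨a, b, c, T, hT, h⟩ := dom_affine (rules hD) (S := {0, 1}) (Or.inl rfl) (Or.inr rfl)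
      (presents_frac hk) A
    exact ⟨_, ⟨a, b, c, T, hT, rfl⟩, h⟩

/-- one cubic for finitely many smooth schemes -/
theorem list_cubic {S : Set k} [IsNoetherianRing k] (hD : IsCData D) (hJ : Jouanolou D)
    (hS : S = Set.univ ∨ (Frac k ∧ S = {0, 1})) (L : List (Sch k))
    (hL : ∀ X ∈ L, FT True X ∧ Smooth X.hom) :
    ∃ Z : Sch k, IsCubic S Z ∧ ∀ X ∈ L, Dom D 3 Z X := by
  obtain ⟨A, _, _, _, h⟩ := list_aff hD hJ L hL
  obtain ⟨Z, hZ, h'⟩ := one_cub hD hS A
  exact ⟨Z, hZ, fun X hX => (rules hD).trans h' (h X hX)⟩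

end List

section Mot

variable {k : Type} [Field k] {A : Type u} [Category.{v} A] [Preadditive A] [HasZeroObject A]
  [HasBinaryBiproducts A] {E : Type u'} [Category.{v'} E] [Abelian E]

/-- Data on the category `A` of homological motives over `k`:

* `Mc X` in `K(A)`: the weight complex with compact support of the scheme `X`, `push`, `res`, `bd`
  the morphisms of `CData`, `tw` the Tate twist;
* `h w M`: the part of weight `w` of the realization of `M`; for the motive of a smooth projective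
  `Y` this is the homology `H_{-w}(Y)`, the dual of `H^{-w}(Y)`;
* `t`: the Tate twist `M ↦ M(1)[2]`, that is `M ⊗ L` with `M(ℙ¹) = 1 ⊕ L`;
* `mot Y`: the motive of a smooth projective scheme `Y`. -/
structure MotData (k : Type) [CommRing k] (A : Type u) [Category.{v} A] [Preadditive A]
    (E : Type u') [Category.{v'} E] extends CData k (HK A) where
  h : ℤ → (A ⥤ E)
  t : A ≌ A
  mot : Sch k → A

/-- The smallest class of objects which contains the motives of the schemes `Y` with the property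
`SP` (smooth projective, or smooth proper) and is closed under direct sums, direct factors and
Tate twists (in both directions). -/
inductive Eff (SP : Sch k → Prop) (D : MotData k A E) : A → Prop
  | mot (Y : Sch k) : SP Y → Eff SP D (D.mot Y)
  | factor {M N : A} : IsFactor M N → Eff SP D N → Eff SP D M
  | sum {M N : A} : Eff SP D M → Eff SP D N → Eff SP D (M ⊞ N)
  | twist {M : A} : Eff SP D M → Eff SP D (D.t.functor.obj M)
  | untwist {M : A} : Eff SP D (D.t.functor.obj M) → Eff SP D M

/-- The standard properties.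

* `complex`, `jou`: the standard properties of weight complexes with compact support (`IsCData`,
  `Jouanolou`; Gillet, Soulé, Bondarko);
* `faithful`: the realization is faithful on homological motives (by definition);
* `tate`: the realization of a Tate twist;
* `tw`: the twist of complexes is the twist of the terms;
* `pure`: the weight complex of `Y` with the property `SP` is the motive of `Y` in degree zero;
* `terms`: the terms of the weight complexes are direct factors of sums of Tate twists of motives of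
  such `Y`. -/
structure IsMotData (SP : Sch k → Prop) (D : MotData k A E) [∀ w, (D.h w).Additive]
    [D.t.functor.Additive] : Prop where
  complex : IsCData D.toCData
  jou : Jouanolou D.toCData
  smooth : ∀ Y, SP Y → FT True Y ∧ Smooth Y.hom
  faithful : ∀ {M N : A} (f g : M ⟶ N), (∀ w, (D.h w).map f = (D.h w).map g) → f = g
  tate : ∀ w, Nonempty (D.t.functor ⋙ D.h (w - 2) ≅ D.h w)
  tw : ∀ K : HK A, Nonempty (D.tw K ≅ (D.t.functor.mapHomotopyCategory (ComplexShape.up ℤ)).obj K)
  pure : ∀ Y, SP Y → Nonempty (D.Mc Y ≅ (inZero A).obj (D.mot Y))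
  terms : ∀ X : Sch k, FT True X → ∃ L : CochainComplex A ℤ, (∀ i, Eff SP D (L.X i)) ∧
    Nonempty (D.Mc X ≅ (HomotopyCategory.quotient A (ComplexShape.up ℤ)).obj L)

/-- The set `𝒱` of sets of weights is invariant under the translations by `2` and `-2`. -/
def Translates (𝒱 : Set (Set ℤ)) : Prop :=
  ∀ V ∈ 𝒱, {w | w + 2 ∈ V} ∈ 𝒱 ∧ {w | w - 2 ∈ V} ∈ 𝒱

/-- For all `V ∈ 𝒱` the projector of the realization of `M` onto the weights in `V` is induced by an
endomorphism of the motive `M`. -/
def Projectors (D : MotData k A E) (𝒱 : Set (Set ℤ)) (M : A) : Prop :=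
  ∀ V ∈ 𝒱, HasProj D.h (· ∈ V) M

variable {SP : Sch k → Prop} {D : MotData k A E} [∀ w, (D.h w).Additive] [D.t.functor.Additive]
  {𝒱 : Set (Set ℤ)}

/-- For all `V ∈ 𝒱` there is an endomorphism of `K` in the homotopy category which induces, on the
cohomology of the complexes of the parts of weight `w` (for `K = Mc X` these are the graded objects
`Gr^W_w` of the homology of `X`), the identity if `w ∈ V` and zero otherwise. -/
def ProjectorsC (D : MotData k A E) [∀ w, (D.h w).Additive] (𝒱 : Set (Set ℤ)) (K : HK A) : Prop :=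
  ∀ V ∈ 𝒱, HasProj (coh D.h) (fun i => i.1 ∈ V) K

/-- The same only for the cohomology in the position `p` (for `K = Mc X` these are the graded objects
`Gr^W_w H_{-w-p}` of the homology of `X`). -/
def ProjectorsAt (D : MotData k A E) [∀ w, (D.h w).Additive] (𝒱 : Set (Set ℤ)) (p : ℤ)
    (K : HK A) : Prop :=
  ∀ V ∈ 𝒱, HasProj (fun w => coh D.h (w, p)) (· ∈ V) K

lemma eff_projectors (hD : IsMotData SP D) (h𝒱 : Translates 𝒱)
    (h : ∀ Y, SP Y → Projectors D 𝒱 (D.mot Y)) {M : A} (hM : Eff SP D M) : Projectors D 𝒱 M := by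
  induction hM with
  | mot Y hY => exact h Y hY
  | factor hf _ ih => exact fun V hV => (ih V hV).factor hf
  | sum _ _ ih ih' => exact fun V hV => proj_sum D.h V (ih V hV) (ih' V hV)
  | twist _ ih =>
    intro V hV
    refine (ih _ (h𝒱 V hV).2).push D.t.functor (fun w => w - 2) hD.tate ?_ ?_
    · intro w
      exact Iff.rfl
    · intro w
      exact Or.inl ⟨w + 2, by ring⟩
  | untwist _ ih =>
    intro V hV
    refine (ih _ (h𝒱 V hV).1).pull D.t.functor (fun w => w - 2) hD.tate ?_
    intro w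
    change w - 2 + 2 ∈ V ↔ w ∈ V
    rw [sub_add_cancel]

/-- the projectors in one position descend -/
lemma desc_projectors (hD : IsMotData SP D) (h𝒱 : Translates 𝒱) :
    Descends D.toCData fun (n : ℤ) K => ProjectorsAt D 𝒱 (-n) K where
  retract _ _ _ s r h hB V hV := (hB V hV).factor ⟨s, r, h⟩
  shift n K h V hV := by
    refine (h V hV).pull (shiftFunctor (HK A) (1 : ℤ)) id (fun w => ?_) (fun w => Iff.rfl)
    have e : -(n + 1) = -n - 1 := by ring
    rw [e]
    exact ⟨cohShift D.h w (-n)⟩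
  twist n K h V hV := by
    have hfull : (D.t.functor.mapHomotopyCategory (ComplexShape.up ℤ)).Full := inferInstance
    obtain ⟨e⟩ := hD.tw K
    have h1 : HasProj (fun w => coh D.h (w, -n)) (· ∈ {w | w + 2 ∈ V})
        ((D.t.functor.mapHomotopyCategory (ComplexShape.up ℤ)).obj K) :=
      (h _ (h𝒱 V hV).1).factor ⟨e.inv, e.hom, e.inv_hom_id⟩
    refine h1.pull (D.t.functor.mapHomotopyCategory (ComplexShape.up ℤ))
      (fun w : ℤ => w - 2) (fun w => ?_) (fun w => ?_)
    · obtain ⟨τ⟩ := hD.tate w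
      exact ⟨cohTwist D.h D.t.functor w (-n) τ⟩
    · change w - 2 + 2 ∈ V ↔ w ∈ V
      rw [sub_add_cancel]

/-- from the weight complex of `Y` to the motive of `Y` -/
lemma projectors_of (hD : IsMotData SP D) (Y : Sch k) (hY : SP Y)
    (h : ProjectorsAt D 𝒱 0 (D.Mc Y)) : Projectors D 𝒱 (D.mot Y) := by
  obtain ⟨e⟩ := hD.pure Y hY
  have hfull := full_inZero (A := A)
  intro V hV
  have h1 := (h V hV).factor (A := (inZero A).obj (D.mot Y)) ⟨e.inv, e.hom, e.inv_hom_id⟩
  exact h1.pull (inZero A) id (fun w => ⟨cohZero D.h w⟩) (fun w => Iff.rfl)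

omit [HasZeroObject A] [HasBinaryBiproducts A] [D.t.functor.Additive] in
/-- from all positions to one position -/
lemma projectors_at {p : ℤ} {K : HK A} (h : ProjectorsC D 𝒱 K) : ProjectorsAt D 𝒱 p K := by
  intro V hV
  obtain ⟨e, he⟩ := h V hV
  exact ⟨e, fun w => he (w, p)⟩

/-- all schemes -/
lemma projectors_all (hD : IsMotData SP D) (h𝒱 : Translates 𝒱)
    (h : ∀ Y, SP Y → Projectors D 𝒱 (D.mot Y)) (X : Sch k) (hX : FT True X) :
    ProjectorsC D 𝒱 (D.Mc X) := by
  obtain ⟨L, hL, ⟨e⟩⟩ := hD.terms X hX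
  intro V hV
  exact (proj_complex D.h V hD.faithful L fun i => eff_projectors hD h𝒱 h (hL i) V hV).factor
    ⟨e.hom, e.inv, e.hom_inv_id⟩

/-- **Projectors onto weights and cubic hypersurfaces.** -/
theorem projectors_cubic (hD : IsMotData SP D) (h𝒱 : Translates 𝒱) (S : Set k)
    (hS : S = Set.univ ∨ (Frac k ∧ S = {0, 1})) :
    (∀ L : List (Sch k), (∀ Y ∈ L, SP Y) → ∃ Z : Sch k, IsCubic S Z ∧
      (ProjectorsAt D 𝒱 (-3) (D.Mc Z) → ∀ Y ∈ L, Projectors D 𝒱 (D.mot Y))) ∧
    ((∀ Y : Sch k, SP Y → Projectors D 𝒱 (D.mot Y)) ↔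
      ∀ Z : Sch k, IsCubic S Z → ProjectorsC D 𝒱 (D.Mc Z)) ∧
    ((∀ Y : Sch k, SP Y → Projectors D 𝒱 (D.mot Y)) ↔
      ∀ Z : Sch k, IsCubic S Z → ProjectorsAt D 𝒱 (-3) (D.Mc Z)) := by
  have h1 : ∀ L : List (Sch k), (∀ Y ∈ L, SP Y) → ∃ Z : Sch k, IsCubic S Z ∧
      (ProjectorsAt D 𝒱 (-3) (D.Mc Z) → ∀ Y ∈ L, Projectors D 𝒱 (D.mot Y)) := by
    intro L hL
    obtain ⟨Z, hZ, h⟩ := list_cubic hD.complex hD.jou hS L fun Y hY => hD.smooth Y (hL Y hY)
    refine ⟨Z, hZ, fun hP Y hY => projectors_of hD Y (hL Y hY) ?_⟩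
    have h2 := h Y hY _ (desc_projectors hD h𝒱) 0
    simp only [zero_add, neg_zero] at h2
    exact h2 (by exact_mod_cast hP)
  have h2 : (∀ Z : Sch k, IsCubic S Z → ProjectorsAt D 𝒱 (-3) (D.Mc Z)) →
      ∀ Y : Sch k, SP Y → Projectors D 𝒱 (D.mot Y) := by
    intro h Y hY
    obtain ⟨Z, hZ, h2⟩ := h1 [Y] fun Y' hY' => by
      rw [List.mem_singleton.1 hY']
      exact hY
    exact h2 (h Z hZ) Y (List.mem_singleton.2 rfl)
  have h3 : (∀ Y : Sch k, SP Y → Projectors D 𝒱 (D.mot Y)) →
      ∀ Z : Sch k, IsCubic S Z → ProjectorsC D 𝒱 (D.Mc Z) := by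
    intro h Z hZ
    refine projectors_all hD h𝒱 h Z ?_
    obtain ⟨a, b, c, T, -, rfl⟩ := hZ
    exact ft_aff True
  exact ⟨h1, ⟨h3, fun h => h2 fun Z hZ => projectors_at (h Z hZ)⟩,
    ⟨fun h Z hZ => projectors_at (h3 h Z hZ), h2⟩⟩

end Mot

end Pool.Agent.Q115.DU
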