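import Pool.Agent.Q115.DU.Alg

/-!
# One hypersurface `T(x, y, z) = 1` for each affine scheme of finite type
-/

set_option autoImplicit false

open CategoryTheory AlgebraicGeometry MvPolynomial

namespace Pool.Agent.Q115.DU

open Pool.Agent.Y116.UV Pool.Agent.Q193.LT

variable {R : Type} [CommRing R]

/-- polynomials in two variables -/
abbrev PP (B : Type) [CommRing B] : Type := Polynomial (Polynomial B)

/-- Relations `Dom s X Y` between schemes over `R`, where `s` is a natural number (the number of
shifts), with the following rules: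

* transitivity, where the numbers `s` are added, and `Dom 0` is true for isomorphic affine schemes;
* `X × 𝔾_m` dominates `X`, with one shift;
* the spectrum of `A[t] / (t w)` dominates the spectrum of the localization `A_w`, without shift;
* if one of the functions `f_l` on `𝔸² × Spec B` is the product of the two coordinates, then the
  bundle `∑ f_l w_l = 1` over the complement of `f = 0` dominates the closed subscheme `f = 0`, with
  one shift. -/
structure Rules (Dom : ℕ → Sch R → Sch R → Prop) : Prop where
  trans : ∀ {s t : ℕ} {X Y Z : Sch R}, Dom s X Y → Dom t Y Z → Dom (s + t) X Z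
  iso : ∀ (A B : Type) [CommRing A] [CommRing B] [Algebra R A] [Algebra R B]
    [Algebra.FiniteType R A], (A ≃ₐ[R] B) → Dom 0 (aff R A) (aff R B)
  torus : ∀ (A : Type) [CommRing A] [Algebra R A] [Algebra.FiniteType R A],
    Dom 1 (aff R (LaurentPolynomial A)) (aff R A)
  glue : ∀ (A : Type) [CommRing A] [Algebra R A] [Algebra.FiniteType R A] (w : A),
    Dom 0 (aff R (Glue A w)) (aff R (Localization.Away w))
  jou : ∀ (B : Type) [CommRing B] [Algebra R B] [Algebra.FiniteType R B] (m : ℕ)
    (f : Fin m → PP B), (∃ l, f l = Polynomial.X * Polynomial.C Polynomial.X) →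
    Dom 1 (aff R (Jou f)) (aff R (PP B ⧸ Ideal.span (Set.range f)))

section Congr

variable {P P' : Type} [CommRing P] [CommRing P'] [Algebra R P] [Algebra R P']

/-- the bundles for isomorphic algebras -/
noncomputable def jouCongr (e : P ≃ₐ[R] P') {m : ℕ} (f : Fin m → P) (f' : Fin m → P')
    (h : ∀ l, e (f l) = f' l) : Jou f ≃ₐ[R] Jou f' :=
  Ideal.quotientEquivAlg _ _ (MvPolynomial.mapAlgEquiv (Fin m) e) (by
    rw [Ideal.map_span, Set.image_singleton]
    congr 2
    have h1 : ∀ l, MvPolynomial.mapAlgEquiv (Fin m) e (C (f l) * X l) = C (f' l) * X l := by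
      intro l
      rw [← h l]
      change MvPolynomial.map (e : P →+* P') (C (f l) * X l) = _
      rw [map_mul, map_C, map_X]
      rfl
    change _ = MvPolynomial.mapAlgEquiv (Fin m) e (∑ l, C (f l) * X l - 1)
    rw [map_sub, map_one, map_sum, Finset.sum_congr rfl fun l _ => h1 l])

/-- the quotients of isomorphic algebras -/
noncomputable def quotCongr (e : P ≃ₐ[R] P') {κ κ' : Type} (a : κ → κ') (ha : Function.Surjective a)
    (f : κ → P) (f' : κ' → P') (h : ∀ l, e (f l) = f' (a l)) :
    (P ⧸ Ideal.span (Set.range f)) ≃ₐ[R] (P' ⧸ Ideal.span (Set.range f')) :=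
  Ideal.quotientEquivAlg _ _ e (by
    rw [Ideal.map_span]
    congr 1
    ext x
    constructor
    · rintro ⟨l', rfl⟩
      obtain ⟨l, rfl⟩ := ha l'
      exact ⟨f l, ⟨l, rfl⟩, h l⟩
    · rintro ⟨_, ⟨l, rfl⟩, rfl⟩
      exact ⟨a l, (h l).symm⟩)

end Congr

lemma bil_some {S : Set R} (h0 : 0 ∈ S) {β γ : Type} [Fintype β] [Fintype γ]
    {g : MvPolynomial (β ⊕ γ) R} (hg : g ∈ bilIn S β γ) :
    rename (Sum.map some some) g ∈ bilIn S (Option β) (Option γ) := by
  obtain ⟨b, hb, rfl⟩ := hg
  refine ⟨fun j k => j.elim 0 fun j => k.elim 0 fun k => b j k, ?_, ?_⟩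
  · rintro (_ | j) (_ | k)
    · exact h0
    · exact h0
    · exact h0
    · exact hb j k
  · rw [bil_apply, bil_apply]
    simp [Fintype.sum_option, map_sum, map_mul, rename_X]

/-- the variables in two groups -/
def rho (M N : Type) : Option (Option (M ⊕ N)) ≃ Option M ⊕ Option N where
  toFun o := o.elim (Sum.inr none) fun o => o.elim (Sum.inl none) (Sum.map some some)
  invFun s := s.elim (fun o => o.elim (some none) fun m => some (some (Sum.inl m)))
    (fun o => o.elim none fun n => some (some (Sum.inr n)))
  left_inv := by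
    rintro (_ | _ | (m | n)) <;> rfl
  right_inv := by
    rintro ((_ | m) | (_ | n)) <;> rfl

section Two

variable (R) (σ : Type) [DecidableEq σ] (i : σ)

/-- the polynomials in the other variables -/
abbrev Bt : Type := MvPolynomial {x : σ // x ≠ i} R

/-- two of the variables as variables of polynomial rings -/
noncomputable def twoEquiv : MvPolynomial (Option σ) R ≃ₐ[R] PP (Bt R σ i) :=
  (renameEquiv R (Equiv.optionCongr (Equiv.optionSubtypeNe i).symm)).trans
    ((optionEquivLeft R (Option {x : σ // x ≠ i})).trans
      (Polynomial.mapAlgEquiv (optionEquivLeft R {x : σ // x ≠ i})))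

lemma twoEquiv_X (o : Option σ) : twoEquiv R σ i (X o) =
    Polynomial.mapAlgEquiv (optionEquivLeft R {x : σ // x ≠ i})
      (optionEquivLeft R (Option {x : σ // x ≠ i})
        (X (o.map (Equiv.optionSubtypeNe i).symm))) := by
  change Polynomial.mapAlgEquiv (optionEquivLeft R {x : σ // x ≠ i})
      (optionEquivLeft R (Option {x : σ // x ≠ i}) (rename _ (X o))) = _
  rw [rename_X]
  rfl

lemma twoEquiv_none : twoEquiv R σ i (X none) = Polynomial.X := by
  rw [twoEquiv_X, Option.map_none, optionEquivLeft_X_none]
  exact Polynomial.map_X _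

lemma twoEquiv_some : twoEquiv R σ i (X (some i)) = Polynomial.C Polynomial.X := by
  rw [twoEquiv_X, Option.map_some, optionEquivLeft_X_some]
  have h : (Equiv.optionSubtypeNe i).symm i = none := by
    rw [Equiv.symm_apply_eq]
    simp
  rw [h]
  refine (Polynomial.map_C _).trans ?_
  congr 1
  exact optionEquivLeft_X_none _ _

end Two

section Main

variable {Dom : ℕ → Sch R → Sch R → Prop} (hD : Rules Dom)

include hD

/-- localizations of isomorphic algebras -/
lemma dom_loc {A B : Type} [CommRing A] [CommRing B] [Algebra R A] [Algebra R B]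
    [Algebra.FiniteType R A] (e : A ≃ₐ[R] B) (v : A) (w : B) (h : e v = w) :
    Dom 0 (aff R (Localization.Away v)) (aff R (Localization.Away w)) := by
  have : Algebra.FiniteType R (Localization.Away v) :=
    Algebra.FiniteType.trans (S := A) inferInstance inferInstance
  refine hD.iso _ _ (IsLocalization.algEquivOfAlgEquiv (M := Submonoid.powers v)
    (T := Submonoid.powers w) (Localization.Away v) (Localization.Away w) e ?_)
  rw [← h]
  exact Submonoid.map_powers _ _

variable {S : Set R} (h0 : 0 ∈ S) (h1 : 1 ∈ S)

/-- from the bilinear system to the localization -/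
lemma dom_two {σ κ : Type} [Finite σ] (f : κ → MvPolynomial σ R) (u v : MvPolynomial σ R) :
    Dom 0 (aff R (Qf (gf (gf f v) (rename some u))))
      (aff R (Localization.Away (qm f (u * v)))) := by
  have ft : ∀ {σ κ : Type} [Finite σ] (f : κ → MvPolynomial σ R), Algebra.FiniteType R (Qf f) :=
    fun f => inferInstance
  have i0 := ft f
  have i1 := ft (gf f v)
  have i2 := ft (gf (gf f v) (rename some u))
  have c1 := hD.iso _ _ (presGlue (gf f v) (rename some u))
  have c2 := hD.glue _ (qm (gf f v) (rename some u))
  have c3 := dom_loc hD (presGlue f v) (qm (gf f v) (rename some u)) (gC R (qm f v) (qm f u))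
    (presGlue_some f v u)
  have i3 : Algebra.FiniteType R (Glue (Qf f) (qm f v)) := by
    have : Algebra.FiniteType R (Polynomial (Qf f)) :=
      Algebra.FiniteType.trans (S := Qf f) inferInstance inferInstance
    infer_instance
  have i4 : Algebra.FiniteType R (Localization.Away (gC R (qm f v) (qm f u))) :=
    Algebra.FiniteType.trans (S := Glue (Qf f) (qm f v)) inferInstance inferInstance
  have c4 := hD.iso _ _ (glueLoc R (qm f v) (qm f u))
  have i5 : Algebra.FiniteType R (Localization.Away (qm f u)) :=
    Algebra.FiniteType.trans (S := Qf f) inferInstance inferInstance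
  have c5 := hD.glue _ (algebraMap (Qf f) (Localization.Away (qm f u)) (qm f v))
  have i6 : Algebra.FiniteType R
      (Localization.Away (algebraMap (Qf f) (Localization.Away (qm f u)) (qm f v))) :=
    Algebra.FiniteType.trans (S := Localization.Away (qm f u)) inferInstance inferInstance
  have i7 : IsLocalization.Away (qm f (u * v))
      (Localization.Away (algebraMap (Qf f) (Localization.Away (qm f u)) (qm f v))) := by
    rw [map_mul]
    infer_instance
  have c6 := hD.iso _ _ ((IsLocalization.algEquiv (Submonoid.powers (qm f (u * v)))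
    (Localization.Away (algebraMap (Qf f) (Localization.Away (qm f u)) (qm f v)))
    (Localization.Away (qm f (u * v)))).restrictScalars R)
  exact hD.trans c1 (hD.trans c2 (hD.trans c3 (hD.trans c4 (hD.trans c5 c6))))

include h0 h1

/-- from the hypersurface to the bilinear system -/
lemma dom_hyp {M N κ : Type} [Fintype M] [Fintype N] [Fintype κ]
    (f : κ → MvPolynomial (M ⊕ N) R) (hf : ∀ k, f k ∈ bilIn S M N) (i : M) (j : N) :
    ∃ (a b c : ℕ) (T : Fin a → Fin b → Fin c → R), (∀ i j k, T i j k ∈ S) ∧
      Dom 1 (hypS T) (aff R (Localization.Away (qm f (X (Sum.inl i) * X (Sum.inr j))))) := by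
  classical
  set u : MvPolynomial (M ⊕ N) R := X (Sum.inl i) with hu
  set v : MvPolynomial (M ⊕ N) R := X (Sum.inr j) with hv
  let f2 := gf (gf f v) (rename some u)
  let j0 : Option (M ⊕ N) := some (Sum.inl i)
  let e2 := twoEquiv R (Option (M ⊕ N)) j0
  let e := (Fintype.equivFin (Option (Option κ))).symm
  let F : Fin (Fintype.card (Option (Option κ))) → PP (Bt R (Option (M ⊕ N)) j0) := fun l => e2 (f2 (e l))
  have hmem : ∀ k, rename (rho M N) (f2 k) ∈ bilIn S (Option M) (Option N) := by
    rintro (_ | _ | k)
    · change rename (rho M N) (X none * rename some (rename some u)) ∈ _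
      rw [hu, map_mul, rename_X, rename_X, rename_X, rename_X, mul_comm]
      exact single_mem h0 h1 _ _
    · change rename (rho M N) (rename some (X none * rename some v)) ∈ _
      rw [hv, map_mul, map_mul, rename_X, rename_X, rename_X, rename_X, rename_X]
      exact single_mem h0 h1 _ _
    · change rename (rho M N) (rename some (rename some (f k))) ∈ _
      rw [rename_rename, rename_rename]
      exact bil_some h0 (hf k)
  choose T hTS hT using hmem
  let β := Fintype.equivFin (Option M)
  let γ := Fintype.equivFin (Option N)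
  refine ⟨Fintype.card (Option (Option κ)), Fintype.card (Option M), Fintype.card (Option N),
    fun l j k => T (e l) (β.symm j) (γ.symm k), fun _ _ _ => hTS _ _ _, ?_⟩
  have k1 := hD.iso _ _ (hypRename (Equiv.refl _) β.symm γ.symm fun l => T (e l))
  have k2 := hD.iso _ _ (hypEquiv fun l => T (e l))
  have k3 := hD.iso _ _ (jouCongr ((renameEquiv R (rho M N)).symm.trans e2)
    (fun l => bil (Option M) (Option N) (T (e l))) F (fun l => by
      change e2 ((renameEquiv R (rho M N)).symm (bil (Option M) (Option N) (T (e l)))) = e2 _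
      congr 1
      rw [AlgEquiv.symm_apply_eq, hT]
      rfl))
  have hl : ∃ l, F l = Polynomial.X * Polynomial.C Polynomial.X := by
    refine ⟨e.symm none, ?_⟩
    change e2 (f2 (e (e.symm none))) = _
    rw [e.apply_symm_apply]
    change e2 (X none * rename some (rename some u)) = _
    rw [hu, map_mul, rename_X, rename_X, twoEquiv_none, twoEquiv_some]
  have k4 := hD.jou (Bt R (Option (M ⊕ N)) j0) _ F hl
  have k5 : Dom 0 (aff R (PP (Bt R (Option (M ⊕ N)) j0) ⧸ Ideal.span (Set.range F)))
      (aff R (Qf f2)) := by
    have : Algebra.FiniteType R (PP (Bt R (Option (M ⊕ N)) j0)) := by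
      have : Algebra.FiniteType R (Polynomial (Bt R (Option (M ⊕ N)) j0)) :=
        Algebra.FiniteType.trans (S := Bt R (Option (M ⊕ N)) j0) inferInstance inferInstance
      exact Algebra.FiniteType.trans (S := Polynomial (Bt R (Option (M ⊕ N)) j0)) inferInstance
        inferInstance
    exact hD.iso _ _ (quotCongr e2.symm e e.surjective F f2 fun l => e2.symm_apply_apply _)
  exact hD.trans k1 (hD.trans k2 (hD.trans k3 (hD.trans k4 (hD.trans k5 (dom_two hD f u v)))))

/-- **One hypersurface for each affine scheme of finite type.** -/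
theorem dom_affine (hS : Presents S) (A : Type) [CommRing A] [Algebra R A]
    [Algebra.FiniteType R A] :
    ∃ (a b c : ℕ) (T : Fin a → Fin b → Fin c → R), (∀ i j k, T i j k ∈ S) ∧
      Dom 3 (hypS T) (aff R A) := by
  classical
  obtain ⟨n, φ, G, hs, hK, hc⟩ := hS A
  let D : ℕ := 1 + ∑ g ∈ G, ∑ m ∈ g.support, m.degree
  have hD1 : 1 ≤ D := by omega
  have hd : ∀ g ∈ G, ∀ m ∈ g.support, m.degree ≤ D := by
    intro g hg m hm
    have h1 : m.degree ≤ ∑ m ∈ g.support, m.degree :=
      Finset.single_le_sum (f := fun m : Fin n →₀ ℕ => m.degree) (fun _ _ => Nat.zero_le _) hm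
    have h2 : ∑ m ∈ g.support, m.degree ≤ ∑ g ∈ G, ∑ m ∈ g.support, m.degree :=
      Finset.single_le_sum (f := fun g : MvPolynomial (Fin n) R => ∑ m ∈ g.support, m.degree)
        (fun _ _ => Nat.zero_le _) hg
    omega
  have hG : ∀ g ∈ G, φ g = 0 := by
    intro g hg
    have : g ∈ RingHom.ker φ := by
      rw [hK]
      exact Ideal.subset_span hg
    exact this
  obtain ⟨a, b, c, T, hT, hdom⟩ := dom_hyp hD h0 h1 (eqs hD1 G) (eqs_mem hD1 G h0 h1 hc)
    (mo n D) (mo n D)
  refine ⟨a, b, c, T, hT, ?_⟩
  have i1 : Algebra.FiniteType R (LCone hD1 G) :=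
    Algebra.FiniteType.trans (S := Cone hD1 G) inferInstance inferInstance
  have k1 : Dom 0 (aff R (LCone hD1 G)) (aff R (Tor A)) :=
    hD.iso _ _ (coneEquiv hD1 G φ hG hd hs hK)
  have i2 := ft_laurent (R := R) A
  exact hD.trans hdom (hD.trans k1 (hD.trans (hD.torus (LaurentPolynomial A)) (hD.torus A)))

end Main

/-- **One tripartite hypergraph for each affine scheme of finite type** over a noetherian ring all
of whose elements are quotients of integers. -/
theorem dom_graph [IsNoetherianRing R] (hR : Frac R) {Dom : ℕ → Sch R → Sch R → Prop}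
    (hD : Rules Dom) (A : Type) [CommRing A] [Algebra R A] [Algebra.FiniteType R A] :
    ∃ (a b c : ℕ) (H : Finset (Fin a × Fin b × Fin c)), Dom 3 (tripS R H) (aff R A) := by
  classical
  obtain ⟨a, b, c, T, hT, h⟩ := dom_affine hD (S := {0, 1}) (Or.inl rfl) (Or.inr rfl)
    (presents_frac hR) A
  let H : Finset (Fin a × Fin b × Fin c) := Finset.univ.filter fun h => T h.1 h.2.1 h.2.2 = 1
  have h1 : T = fun i j k => if (i, j, k) ∈ H then (1 : R) else 0 := by
    funext i j k
    have hm : (i, j, k) ∈ H ↔ T i j k = 1 := by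
      rw [Finset.mem_filter]
      exact ⟨fun h => h.2, fun h => ⟨Finset.mem_univ _, h⟩⟩
    by_cases h : T i j k = 1
    · rw [if_pos (hm.mpr h), h]
    · rw [if_neg fun h2 => h (hm.mp h2)]
      rcases hT i j k with h2 | h2
      · exact h2
      · exact absurd h2 h
  refine ⟨a, b, c, H, ?_⟩
  unfold tripS Trip
  rw [← tri_ind, ← h1]
  exact h

end Pool.Agent.Q115.DU
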