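import Pool.Agent.Q115.DU.Geo

/-!
# Motives with compact support as direct factors of those of the hypersurfaces `T(x, y, z) = 1`
-/

set_option autoImplicit false

open CategoryTheory CategoryTheory.Limits AlgebraicGeometry Pretriangulated

namespace Pool.Agent.Q115.DU

open Pool.Agent.Y116.UV Pool.Agent.Q193.LT

universe v u

/-- The motives with compact support `Mc X` of the schemes of finite type over `k`, the morphisms
`push` of closed immersions and `res` of open immersions, the boundary morphisms `bd` of
complementary closed and open subschemes, and the Tate twist `tw A = A(1)[2]`. -/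
structure CData (k : Type) [CommRing k] (C : Type u) [Category.{v} C] [HasShift C ℤ] where
  Mc : Sch k → C
  push : ∀ {Z X : Sch k} (_ : Z ⟶ X), Mc Z ⟶ Mc X
  res : ∀ {U X : Sch k} (_ : U ⟶ X), Mc X ⟶ Mc U
  bd : ∀ {Z X U : Sch k} (_ : Z ⟶ X) (_ : U ⟶ X), Mc U ⟶ (Mc Z)⟦(1 : ℤ)⟧
  tw : C → C

variable {k : Type} [CommRing k] {C : Type u} [Category.{v} C] [Preadditive C] [HasZeroObject C]
  [HasShift C ℤ] [∀ n : ℤ, (shiftFunctor C n).Additive] [Pretriangulated C]

/-- The standard properties of the motives with compact support: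

* `iso`: isomorphic schemes have isomorphic motives with compact support;
* `triangle`: the localization triangle `Mc Z → Mc X → Mc U → Mc Z[1]`;
* `natural`: it is compatible with closed immersions `Z → Z'`, `X → X'` if `U` is the common open
  complement;
* `res_id`, `res_comp`: functoriality for open immersions;
* `disjoint`: the restriction of the classes with support in `Z` to an open subscheme disjoint from
  `Z` is zero;
* `zero`: the zero section `X → X × 𝔸¹` induces the zero morphism `Mc X → Mc (X × 𝔸¹)`, for affine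
  schemes `X`;
* `bundle`: for the affine bundle `Spec A[w_1, …, w_m] / (∑ f_l w_l - 1) → U` with fibre `𝔸^(m-1)`,
  where `U` is the complement of `f = 0` in `Spec A`, the motive with compact support of the total
  space is the one of `U`, twisted `m - 1` times. -/
structure IsCData (D : CData k C) : Prop where
  iso : ∀ {X Y : Sch k}, FT True X → Nonempty (X ≅ Y) → Nonempty (D.Mc X ≅ D.Mc Y)
  triangle : ∀ {Z X U : Sch k} (i : Z ⟶ X) (j : U ⟶ X), FT True X → IsTriple i j →
    Triangle.mk (D.push i) (D.res j) (D.bd i j) ∈ distTriang C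
  natural : ∀ {Z X Z' X' U : Sch k} (i : Z ⟶ X) (j : U ⟶ X) (i' : Z' ⟶ X') (j' : U ⟶ X')
    (z : Z ⟶ Z') (x : X ⟶ X'), FT True X' → IsTriple i j → IsTriple i' j' →
    IsClosedImmersion z.left → IsClosedImmersion x.left → i ≫ x = z ≫ i' → j ≫ x = j' →
    D.bd i' j' = D.bd i j ≫ (D.push z)⟦(1 : ℤ)⟧'
  res_id : ∀ X : Sch k, FT True X → D.res (𝟙 X) = 𝟙 _
  res_comp : ∀ {U V X : Sch k} (j : U ⟶ V) (j' : V ⟶ X), FT True X → IsOpenImmersion j.left →
    IsOpenImmersion j'.left → D.res (j ≫ j') = D.res j' ≫ D.res j
  disjoint : ∀ {Z X U : Sch k} (i : Z ⟶ X) (j : U ⟶ X), FT True X → IsClosedImmersion i.left →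
    IsOpenImmersion j.left → Disjoint (Set.range i.left) (Set.range j.left) →
    D.push i ≫ D.res j = 0
  zero : ∀ (A : Type) [CommRing A] [Algebra k A] [Algebra.FiniteType k A],
    D.push (affMap (ev0 k A)) = 0
  bundle : ∀ (A : Type) [CommRing A] [Algebra k A] [Algebra.FiniteType k A] (m : ℕ)
    (f : Fin m → A) (U : Sch k) (j : U ⟶ aff k A), IsOpenImmersion j.left →
    Set.range j.left = {x : PrimeSpectrum A | ∃ l, f l ∉ x.asIdeal} →
    Nonempty (D.Mc (aff k (Jou f)) ≅ D.tw^[m - 1] (D.Mc U))

/-- Properties `P n` of objects, `n ∈ ℤ`, each of which passes to direct factors, and from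
`A(1)[2]` to `A`, and such that `P (n + 1)` for `A[1]` implies `P n` for `A`. -/
structure Descends (D : CData k C) (P : ℤ → C → Prop) : Prop where
  retract : ∀ (n : ℤ) {A B : C} (s : A ⟶ B) (r : B ⟶ A), s ≫ r = 𝟙 A → P n B → P n A
  shift : ∀ (n : ℤ) (A : C), P (n + 1) (A⟦(1 : ℤ)⟧) → P n A
  twist : ∀ (n : ℤ) (A : C), P n (D.tw A) → P n A

/-- For all properties which descend, `P (n + s)` for the motive with compact support of `X`
implies `P n` for the one of `Y`. -/
def Dom (D : CData k C) (s : ℕ) (X Y : Sch k) : Prop :=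
  ∀ P : ℤ → C → Prop, Descends D P → ∀ n : ℤ, P (n + s) (D.Mc X) → P n (D.Mc Y)

variable {D : CData k C}

lemma iso_open {X Y : Sch k} (e : X ≅ Y) : IsOpenImmersion e.hom.left := by
  have : IsIso e.hom.left := inferInstanceAs (IsIso ((Over.forget _).map e.hom))
  infer_instance

omit [Preadditive C] [HasZeroObject C] [∀ n : ℤ, (shiftFunctor C n).Additive]
  [Pretriangulated C] in
lemma desc_iso {P : ℤ → C → Prop} (hP : Descends D P) {n : ℤ} {A B : C} (e : Nonempty (A ≅ B))
    (h : P n A) : P n B := by
  obtain ⟨e⟩ := e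
  exact hP.retract n e.inv e.hom e.inv_hom_id h

omit [Preadditive C] [HasZeroObject C] [∀ n : ℤ, (shiftFunctor C n).Additive]
  [Pretriangulated C] in
lemma desc_tw {P : ℤ → C → Prop} (hP : Descends D P) {n : ℤ} (A : C) :
    ∀ r : ℕ, P n (D.tw^[r] A) → P n A
  | 0, h => h
  | r + 1, h => desc_tw hP A r (by
      rw [Function.iterate_succ_apply'] at h
      exact hP.twist _ _ h)

variable (hD : IsCData D)

include hD

/-- the shifted closed part is a direct factor of the open part if the closed immersion induces
zero -/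
lemma split_open {Z X U : Sch k} (i : Z ⟶ X) (j : U ⟶ X) (hX : FT True X) (ht : IsTriple i j)
    (h0 : D.push i = 0) : ∃ s : (D.Mc Z)⟦(1 : ℤ)⟧ ⟶ D.Mc U, s ≫ D.bd i j = 𝟙 _ := by
  obtain ⟨g, hg⟩ := Triangle.coyoneda_exact₁ _ (hD.triangle i j hX ht) (𝟙 ((D.Mc Z)⟦(1 : ℤ)⟧)) (by
    change 𝟙 _ ≫ (D.push i)⟦(1 : ℤ)⟧' = 0
    rw [h0, Functor.map_zero, comp_zero])
  exact ⟨g, hg.symm⟩

/-- the restriction to the open part is a split monomorphism if the closed immersion induces
zero -/
lemma mono_res {Z X U : Sch k} (i : Z ⟶ X) (j : U ⟶ X) (hX : FT True X) (ht : IsTriple i j)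
    (h0 : D.push i = 0) : Mono (D.res j) := by
  obtain ⟨g, hg⟩ := Triangle.yoneda_exact₂ _ (hD.triangle i j hX ht) (𝟙 (D.Mc X)) (by
    change D.push i ≫ 𝟙 _ = 0
    rw [h0, zero_comp])
  have : IsSplitMono (D.res j) := ⟨⟨⟨g, hg.symm⟩⟩⟩
  infer_instance

/-- the zero section has a complement with injective restriction -/
lemma mono_zero (A : Type) [CommRing A] [Algebra k A] [Algebra.FiniteType k A] :
    Mono (D.res (affMap (toL k A))) := by
  have : Algebra.FiniteType k (Polynomial A) :=
    Algebra.FiniteType.trans (S := A) inferInstance inferInstance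
  exact mono_res hD _ _ (ft_aff True) (triple_zero k A) (hD.zero A)

/-- a closed subscheme of `𝔸² × Spec B` on which the product of the coordinates is zero -/
lemma push_zero (B : Type) [CommRing B] [Algebra k B] [Algebra.FiniteType k B] {Q : Type}
    [CommRing Q] [Algebra k Q] (π : PP B →ₐ[k] Q) (hπ : Function.Surjective π)
    (h0 : π (Polynomial.X * Polynomial.C Polynomial.X) = 0) : D.push (affMap π) = 0 := by
  have i1 : Algebra.FiniteType k (Polynomial B) :=
    Algebra.FiniteType.trans (S := B) inferInstance inferInstance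
  have i2 : Algebra.FiniteType k (PP B) :=
    Algebra.FiniteType.trans (S := Polynomial B) inferInstance inferInstance
  have i3 := ft_laurent (R := k) B
  have i4 := ft_laurent (R := k) (Polynomial B)
  have i5 : Algebra.FiniteType k (Polynomial (LaurentPolynomial B)) :=
    Algebra.FiniteType.trans (S := LaurentPolynomial B) inferInstance inferInstance
  have m1 : Mono (D.res (affMap (toL k (Polynomial B)))) := mono_zero hD _
  have m3 : Mono (D.res (affMap (toL k (LaurentPolynomial B)))) := mono_zero hD _
  have o1 : IsOpenImmersion (affMap (toL k (Polynomial B))).left := (triple_zero k _).opened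
  have o3 : IsOpenImmersion (affMap (toL k (LaurentPolynomial B))).left :=
    (triple_zero k _).opened
  let e := affIso (sw k B)
  have o2 : IsOpenImmersion (affMap (swA k B)).left := by
    exact iso_open e
  have o2' : IsOpenImmersion e.inv.left := iso_open e.symm
  have m2 : Mono (D.res (affMap (swA k B))) := by
    have h1 : D.res e.hom ≫ D.res e.inv = 𝟙 _ := by
      rw [← hD.res_comp e.inv e.hom (ft_aff True) o2' o2, e.inv_hom_id, hD.res_id _ (ft_aff True)]
    have : IsSplitMono (D.res e.hom) := ⟨⟨⟨_, h1⟩⟩⟩
    change Mono (D.res e.hom)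
    infer_instance
  rw [← cancel_mono (D.res (affMap (toL k (Polynomial B)))),
    ← cancel_mono (D.res (affMap (swA k B))),
    ← cancel_mono (D.res (affMap (toL k (LaurentPolynomial B)))), zero_comp, zero_comp, zero_comp]
  simp only [Category.assoc]
  have h2 : D.res (affMap (toL k (Polynomial B))) ≫ D.res (affMap (swA k B)) ≫
      D.res (affMap (toL k (LaurentPolynomial B))) = D.res (affMap (inTwo k B)) := by
    rw [← hD.res_comp _ _ (ft_aff True) o3 o2, ← hD.res_comp _ _ (ft_aff True) ?_ o1]
    · congr 1
      rw [inTwo, affMap_comp, affMap_comp, Category.assoc]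
    · have := o2
      have := o3
      rw [Over.comp_left]
      infer_instance
  rw [h2]
  have o4 : IsOpenImmersion (affMap (inTwo k B)).left := by
    have := o1
    have := o2
    have := o3
    rw [inTwo, affMap_comp, affMap_comp, Over.comp_left, Over.comp_left]
    infer_instance
  refine hD.disjoint _ _ (ft_aff True) (closed_affMap _ hπ) o4 (Set.disjoint_left.2 ?_)
  rintro x hx ⟨y, rfl⟩
  rw [range_affMap _ hπ] at hx
  have h3 : (Polynomial.X * Polynomial.C Polynomial.X : PP B) ∈
      (PrimeSpectrum.comap (inTwo k B : PP B →+* _) y).asIdeal := hx _ h0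
  have h4 : inTwo k B (Polynomial.X * Polynomial.C Polynomial.X) ∈
      (y : PrimeSpectrum (LaurentPolynomial (LaurentPolynomial B))).asIdeal := h3
  exact (PrimeSpectrum.isPrime y).ne_top (Ideal.eq_top_of_isUnit_mem _ h4 (inTwo_unit k B))

/-- **The rules.** -/
theorem rules : Rules (Dom D) where
  trans {s t X Y Z} h1 h2 P hP n hX := h2 P hP n (h1 P hP (n + t) (by
    have e : n + (t : ℤ) + (s : ℤ) = n + ((s + t : ℕ) : ℤ) := by push_cast; ring
    rw [e]
    exact hX))
  iso A B _ _ _ _ _ e P hP n h := by
    rw [Nat.cast_zero, add_zero] at h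
    exact desc_iso hP (hD.iso (ft_aff True) ⟨(affIso e).symm⟩) h
  torus A _ _ _ P hP n h := by
    have : Algebra.FiniteType k (Polynomial A) :=
      Algebra.FiniteType.trans (S := A) inferInstance inferInstance
    obtain ⟨s, hs⟩ := split_open hD _ _ (ft_aff True) (triple_zero k A) (hD.zero A)
    exact hP.shift n _ (hP.retract _ s _ hs h)
  glue A _ _ _ w P hP n h := by
    rw [Nat.cast_zero, add_zero] at h
    have i1 : Algebra.FiniteType k (Glue A w) := by
      have : Algebra.FiniteType k (Polynomial A) :=
        Algebra.FiniteType.trans (S := A) inferInstance inferInstance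
      infer_instance
    have hb : D.bd (affMap (piG k w)) (affMap (psG k w)) = 0 := by
      rw [hD.natural _ _ _ _ _ _ (ft_aff True) (triple_away w) (triple_glue w)
        (closed_affMap _ fun a => ⟨Polynomial.C a, ev0_C k _ a⟩)
        (closed_affMap _ (xG_surjective w)) (square_glue w) (open_glue w), hD.zero,
        Functor.map_zero, comp_zero]
    obtain ⟨g, hg⟩ := Triangle.coyoneda_exact₃ _ (hD.triangle _ _ (ft_aff True) (triple_glue w))
      (𝟙 (D.Mc (aff k (Localization.Away w)))) (by
        change 𝟙 _ ≫ D.bd (affMap (piG k w)) (affMap (psG k w)) = 0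
        rw [hb, comp_zero])
    exact hP.retract n g _ hg.symm h
  jou B _ _ _ m f hf P hP n h := by
    have i1 : Algebra.FiniteType k (Polynomial B) :=
      Algebra.FiniteType.trans (S := B) inferInstance inferInstance
    have i2 : Algebra.FiniteType k (PP B) :=
      Algebra.FiniteType.trans (S := Polynomial B) inferInstance inferInstance
    have h0 : D.push (affMap (mkq k f)) = 0 := by
      refine push_zero hD B _ (mkq_surjective f) ?_
      obtain ⟨l, hl⟩ := hf
      rw [← hl]
      exact mkq_zero f l
    obtain ⟨s, hs⟩ := split_open hD _ _ (ft_aff True) (triple_jou (R := k) f) h0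
    have h1 := desc_iso hP (hD.bundle (PP B) m f _ (opnMap (aff k (PP B)) (neOpen k f))
      inferInstance (range_opnMap _ _)) h
    exact hP.shift n _ (hP.retract _ s _ hs (desc_tw hP _ _ h1))

/-- **One hypersurface for each affine scheme.** -/
theorem one_form [IsNoetherianRing k] (A : Type) [CommRing A] [Algebra k A]
    [Algebra.FiniteType k A] : ∃ (a b c : ℕ) (T : Fin a → Fin b → Fin c → k),
      Dom D 3 (hypS T) (aff k A) := by
  obtain ⟨a, b, c, T, -, h⟩ := dom_affine (rules hD) (S := Set.univ) trivial trivial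
    presents_univ A
  exact ⟨a, b, c, T, h⟩

/-- **One tripartite hypergraph for each affine scheme.** -/
theorem one_graph [IsNoetherianRing k] (hk : Frac k) (A : Type) [CommRing A] [Algebra k A]
    [Algebra.FiniteType k A] : ∃ (a b c : ℕ) (H : Finset (Fin a × Fin b × Fin c)),
      Dom D 3 (tripS k H) (aff k A) :=
  dom_graph hk (rules hD) A

end Pool.Agent.Q115.DU
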