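import Pool.Agent.Q115.DU.Fac
import Pool.Agent.Q193.LT.Defs

/-!
# Projectors onto weights, by endomorphisms of weight complexes
-/

set_option autoImplicit false

open CategoryTheory CategoryTheory.Limits AlgebraicGeometry Pretriangulated

namespace Pool.Agent.Q115.DU

open Pool.Agent.Y116.UV Pool.Agent.Q193.LT

universe v u v' u' v'' u''

section General

variable {X : Type u} [Category.{v} X] {Y : Type u'} [Category.{v'} Y] {E : Type u''}
  [Category.{v''} E] [Preadditive E] {ι ι' : Type}

/-- There is an endomorphism of `A` which induces the identity of `G i A` if `Q i` is true and zero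
otherwise. -/
def HasProj (G : ι → (X ⥤ E)) (Q : ι → Prop) (A : X) : Prop :=
  ∃ e : A ⟶ A, ∀ i, (Q i → (G i).map e = 𝟙 _) ∧ (¬ Q i → (G i).map e = 0)

lemma HasProj.factor {G : ι → (X ⥤ E)} {Q : ι → Prop} {A B : X} (hB : HasProj G Q B)
    (h : IsFactor A B) : HasProj G Q A := by
  obtain ⟨e, he⟩ := hB
  obtain ⟨s, r, hsr⟩ := h
  refine ⟨s ≫ e ≫ r, fun i => ⟨fun hi => ?_, fun hi => ?_⟩⟩
  · rw [Functor.map_comp, Functor.map_comp, (he i).1 hi, Category.id_comp, ← Functor.map_comp,
      hsr, CategoryTheory.Functor.map_id]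
  · rw [Functor.map_comp, Functor.map_comp, (he i).2 hi, zero_comp, comp_zero]

lemma HasProj.pull (F : X ⥤ Y) [F.Full] {G : ι → (X ⥤ E)} {G' : ι' → (Y ⥤ E)} {Q : ι → Prop}
    {Q' : ι' → Prop} (s : ι → ι') (iso : ∀ i, Nonempty (F ⋙ G' (s i) ≅ G i))
    (hQ : ∀ i, Q' (s i) ↔ Q i) {A : X} (h : HasProj G' Q' (F.obj A)) : HasProj G Q A := by
  obtain ⟨e, he⟩ := h
  obtain ⟨f, rfl⟩ := F.map_surjective e
  refine ⟨f, fun i => ?_⟩
  obtain ⟨τ⟩ := iso i
  have h1 : (G i).map f = τ.inv.app A ≫ (G' (s i)).map (F.map f) ≫ τ.hom.app A := by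
    have := τ.inv.naturality f
    rw [Functor.comp_map] at this
    rw [← Category.assoc, ← this, Category.assoc, Iso.inv_hom_id_app, Category.comp_id]
  refine ⟨fun hi => ?_, fun hi => ?_⟩
  · rw [h1, (he (s i)).1 ((hQ i).2 hi)]
    change τ.inv.app A ≫ 𝟙 ((F ⋙ G' (s i)).obj A) ≫ τ.hom.app A = _
    rw [Category.id_comp, Iso.inv_hom_id_app]
  · rw [h1, (he (s i)).2 (fun h => hi ((hQ i).1 h)), zero_comp, comp_zero]

lemma HasProj.push (F : X ⥤ Y) {G : ι → (X ⥤ E)} {G' : ι' → (Y ⥤ E)} {Q : ι → Prop}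
    {Q' : ι' → Prop} (s : ι → ι') (iso : ∀ i, Nonempty (F ⋙ G' (s i) ≅ G i))
    (hQ : ∀ i, Q' (s i) ↔ Q i) {A : X} (hs : ∀ i', (∃ i, i' = s i) ∨ IsZero ((G' i').obj (F.obj A)))
    (h : HasProj G Q A) : HasProj G' Q' (F.obj A) := by
  obtain ⟨f, hf⟩ := h
  refine ⟨F.map f, fun i' => ?_⟩
  rcases hs i' with ⟨i, rfl⟩ | h0
  · obtain ⟨τ⟩ := iso i
    have h1 : (G' (s i)).map (F.map f) = τ.hom.app A ≫ (G i).map f ≫ τ.inv.app A := by
      have := τ.hom.naturality f
      rw [Functor.comp_map] at this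
      rw [← Category.assoc, ← this, Category.assoc, Iso.hom_inv_id_app]
      exact (Category.comp_id _).symm
    refine ⟨fun hi => ?_, fun hi => ?_⟩
    · rw [h1, (hf i).1 ((hQ i).1 hi), Category.id_comp, Iso.hom_inv_id_app]
      rfl
    · rw [h1, (hf i).2 (fun h => hi ((hQ i).2 h)), zero_comp, comp_zero]
  · exact ⟨fun _ => h0.eq_of_src _ _, fun _ => h0.eq_of_src _ _⟩

end General

/-- The homotopy category of complexes. -/
abbrev HK (A : Type u) [Category.{v} A] [Preadditive A] : Type max u v :=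
  HomotopyCategory A (ComplexShape.up ℤ)

/-- The complex with one object in degree zero. -/
noncomputable def inZero (A : Type u) [Category.{v} A] [Preadditive A] [HasZeroObject A] :
    A ⥤ HK A :=
  HomologicalComplex.single A (ComplexShape.up ℤ) 0 ⋙ HomotopyCategory.quotient A (ComplexShape.up ℤ)

section Iso

variable {A : Type u} [Category.{v} A] [Preadditive A] {B : Type u'} [Category.{v'} B]
  [Preadditive B] {E : Type u''} [Category.{v''} E] [Preadditive E]

/-- composition of functors on homotopy categories -/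
noncomputable def mapIso {F : A ⥤ B} {G : B ⥤ E} {H : A ⥤ E} [F.Additive] [G.Additive]
    [H.Additive] (τ : F ⋙ G ≅ H) (c : ComplexShape ℤ) :
    F.mapHomotopyCategory c ⋙ G.mapHomotopyCategory c ≅ H.mapHomotopyCategory c :=
  CategoryTheory.Quotient.natIsoLift _
    (Functor.isoWhiskerRight (NatIso.mapHomologicalComplex τ c) (HomotopyCategory.quotient E c))

end Iso

section Coh

variable {A : Type u} [Category.{v} A] [Preadditive A] {E : Type u'} [Category.{v'} E] [Abelian E]

/-- `coh h (w, p)`: the cohomology in position `p` of the complex of the parts of weight `w`. -/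
noncomputable def coh (h : ℤ → (A ⥤ E)) [∀ w, (h w).Additive] (i : ℤ × ℤ) : HK A ⥤ E :=
  (h i.1).mapHomotopyCategory (ComplexShape.up ℤ) ⋙
    HomotopyCategory.homologyFunctor E (ComplexShape.up ℤ) i.2

variable (h : ℤ → (A ⥤ E)) [∀ w, (h w).Additive]

/-- the shift -/
noncomputable def cohShift [HasZeroObject A] (w p : ℤ) :
    shiftFunctor (HK A) (1 : ℤ) ⋙ coh h (w, p - 1) ≅ coh h (w, p) :=
  (Functor.associator _ _ _).symm ≪≫
    Functor.isoWhiskerRight (((h w).mapHomotopyCategory (ComplexShape.up ℤ)).commShiftIso (1 : ℤ)) _ ≪≫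
    Functor.associator _ _ _ ≪≫ Functor.isoWhiskerLeft _
      ((HomotopyCategory.homologyFunctor E (ComplexShape.up ℤ) 0).shiftIso 1 (p - 1) p (by ring))

/-- the twist -/
noncomputable def cohTwist (t : A ⥤ A) [t.Additive] (w p : ℤ) (τ : t ⋙ h (w - 2) ≅ h w) :
    t.mapHomotopyCategory (ComplexShape.up ℤ) ⋙ coh h (w - 2, p) ≅ coh h (w, p) :=
  (Functor.associator _ _ _).symm ≪≫ Functor.isoWhiskerRight (mapIso τ _) _

/-- one object -/
noncomputable def cohZero [HasZeroObject A] [HasZeroObject E] (w : ℤ) :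
    inZero A ⋙ coh h (w, 0) ≅ h w :=
  Functor.associator _ _ _ ≪≫
    Functor.isoWhiskerLeft (HomologicalComplex.single A (ComplexShape.up ℤ) 0)
      ((Functor.associator _ _ _).symm ≪≫
        Functor.isoWhiskerRight ((h w).mapHomotopyCategoryFactors (ComplexShape.up ℤ)) _ ≪≫
        Functor.associator _ _ _ ≪≫ Functor.isoWhiskerLeft _
          (HomotopyCategory.homologyFunctorFactors E (ComplexShape.up ℤ) 0)) ≪≫
    (Functor.associator _ _ _).symm ≪≫
    Functor.isoWhiskerRight (HomologicalComplex.singleMapHomologicalComplex (h w)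
      (ComplexShape.up ℤ) 0) _ ≪≫ Functor.associator _ _ _ ≪≫
    Functor.isoWhiskerLeft _ (HomologicalComplex.homologyFunctorSingleIso E (ComplexShape.up ℤ) 0) ≪≫
    Functor.rightUnitor _

lemma cohZero_ne [HasZeroObject A] (w p : ℤ) (hp : p ≠ 0) (M : A) :
    IsZero ((coh h (w, p)).obj ((inZero A).obj M)) := by
  let K := (HomologicalComplex.single A (ComplexShape.up ℤ) 0).obj M
  have e1 : (coh h (w, p)).obj ((inZero A).obj M) ≅
      (HomologicalComplex.homologyFunctor E (ComplexShape.up ℤ) p).obj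
        (((h w).mapHomologicalComplex (ComplexShape.up ℤ)).obj K) :=
    (HomotopyCategory.homologyFunctor E (ComplexShape.up ℤ) p).mapIso
      (((h w).mapHomotopyCategoryFactors (ComplexShape.up ℤ)).app K) ≪≫
      (HomotopyCategory.homologyFunctorFactors E (ComplexShape.up ℤ) p).app _
  refine IsZero.of_iso ?_ (e1 ≪≫ (HomologicalComplex.homologyFunctor E (ComplexShape.up ℤ) p).mapIso
    ((HomologicalComplex.singleMapHomologicalComplex (h w) (ComplexShape.up ℤ) 0).app M))
  exact (HomologicalComplex.exactAt_single_obj (ComplexShape.up ℤ) 0 ((h w).obj M) p hp).isZero_homology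

lemma full_inZero [HasZeroObject A] : (inZero A).Full := by
  unfold inZero
  infer_instance

/-- complexes whose terms have projectors -/
lemma proj_complex (V : Set ℤ) (faithful : ∀ {M N : A} (f g : M ⟶ N),
    (∀ w, (h w).map f = (h w).map g) → f = g) (L : CochainComplex A ℤ)
    (hL : ∀ i, HasProj h (· ∈ V) (L.X i)) :
    HasProj (coh h) (fun i => i.1 ∈ V) ((HomotopyCategory.quotient A (ComplexShape.up ℤ)).obj L) := by
  choose e he using hL
  let f : L ⟶ L :=
    { f := e
      comm' := fun i j _ => by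
        refine faithful _ _ fun w => ?_
        rw [Functor.map_comp, Functor.map_comp]
        by_cases hw : w ∈ V
        · rw [(he i w).1 hw, (he j w).1 hw, Category.id_comp, Category.comp_id]
        · rw [(he i w).2 hw, (he j w).2 hw, zero_comp, comp_zero] }
  refine ⟨(HomotopyCategory.quotient A (ComplexShape.up ℤ)).map f, fun i => ?_⟩
  have h1 : (coh h i).map ((HomotopyCategory.quotient A (ComplexShape.up ℤ)).map f) =
      (HomotopyCategory.homologyFunctor E (ComplexShape.up ℤ) i.2).map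
        ((HomotopyCategory.quotient E (ComplexShape.up ℤ)).map
          (((h i.1).mapHomologicalComplex (ComplexShape.up ℤ)).map f)) := rfl
  refine ⟨fun hi => ?_, fun hi => ?_⟩
  · have h2 : ((h i.1).mapHomologicalComplex (ComplexShape.up ℤ)).map f = 𝟙 _ := by
      ext j
      exact (he j i.1).1 hi
    rw [h1, h2, CategoryTheory.Functor.map_id, CategoryTheory.Functor.map_id]
    rfl
  · have h2 : ((h i.1).mapHomologicalComplex (ComplexShape.up ℤ)).map f = 0 := by
      ext j
      exact (he j i.1).2 hi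
    rw [h1, h2, Functor.map_zero, Functor.map_zero]
    rfl

/-- direct sums -/
lemma proj_sum [HasBinaryBiproducts A] (V : Set ℤ) {M N : A} (hM : HasProj h (· ∈ V) M)
    (hN : HasProj h (· ∈ V) N) : HasProj h (· ∈ V) (M ⊞ N) := by
  obtain ⟨e, he⟩ := hM
  obtain ⟨e', he'⟩ := hN
  refine ⟨biprod.fst ≫ e ≫ biprod.inl + biprod.snd ≫ e' ≫ biprod.inr, fun w =>
    ⟨fun hw => ?_, fun hw => ?_⟩⟩
  · rw [Functor.map_add, Functor.map_comp, Functor.map_comp, Functor.map_comp, Functor.map_comp,
      (he w).1 hw, (he' w).1 hw, Category.id_comp, Category.id_comp, ← Functor.map_comp,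
      ← Functor.map_comp, ← Functor.map_add, biprod.total, CategoryTheory.Functor.map_id]
  · rw [Functor.map_add, Functor.map_comp, Functor.map_comp, Functor.map_comp, Functor.map_comp,
      (he w).2 hw, (he' w).2 hw, zero_comp, zero_comp, comp_zero, comp_zero, add_zero]

end Coh

end Pool.Agent.Q115.DU
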